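import Pool.Agent.Helper63.Clust.Seq

/-! Classification of the points of a level `k+1` cell. -/

namespace Helper63.Clust

/-- The six lattice directions. -/
inductive Dir | xp | xm | yp | ym | zp | zm
  deriving DecidableEq, Fintype

/-- Points of the lattice. -/
abbrev V := ℤ × ℤ × ℤ

namespace Dir

/-- one step in a direction -/
def mv : Dir → V → V
  | xp, (x, y, z) => (x + 1, y, z)
  | xm, (x, y, z) => (x - 1, y, z)
  | yp, (x, y, z) => (x, y + 1, z)
  | ym, (x, y, z) => (x, y - 1, z)
  | zp, (x, y, z) => (x, y, z + 1)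
  | zm, (x, y, z) => (x, y, z - 1)

/-- opposite direction -/
def neg : Dir → Dir
  | xp => xm | xm => xp | yp => ym | ym => yp | zp => zm | zm => zp

/-- rotation from the own frame to the parent frame, `(x,y,z) ↦ (z,x,y)` -/
def rot : Dir → Dir
  | xp => yp | xm => ym | yp => zp | ym => zm | zp => xp | zm => xm

end Dir

open Dir

/-- Kinds of points: trunk vertex, branch vertex of given depth and direction,
vertex inside a copy, empty. -/
inductive Cls
  | trunk (m : ℤ)
  | br (i : ℤ) (d : Dir)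
  | copy (x y z : ℤ)
  | none
  deriving DecidableEq

/-- Classification.  `X = x % c`, `r = z / b`, `w = z % b`; `a,b,c,τ` are the parameters of
the smaller pattern, the trunk goes from `x0` to `x1`, `H t` are the heights of the detours,
`Λ` the total detour length. -/
def K (a b c τ x0 x1 Λ : ℤ) (H : ℤ → ℤ) (x y z X r w : ℤ) : Cls :=
  if x0 ≤ x ∧ x ≤ x1 ∧ 0 ≤ y ∧ y < a ∧ 0 ≤ z ∧ z < c * b then
    if y = 0 then (if z = 0 then .trunk (x - x0) else .none)
    else if x = x1 then .none
    else if z = 0 then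
      (if 2 ≤ X ∧ X ≤ c - 2 ∧ 2 * X < y then .none else .br (y - 1) .ym)
    else if y < τ then
      if X = 0 ∧ w = 0 ∧ 2 ≤ r ∧ r ≤ c - 2 ∧ 2 * r < y then .br (y + Λ - 1) .ym
      else if y % 2 = 0 ∧ 4 ≤ y ∧ y ≤ 2 * (c - 2) then
        if X = y / 2 ∧ z ≤ H (y / 2) then .br (y + z - 1) .zm
        else if z = H (y / 2) ∧ X < y / 2 then .br (y + H (y / 2) + (y / 2 - X) - 1) .xp
        else if X = 0 ∧ y / 2 ≤ r ∧ z < H (y / 2) then
          .br (y + 2 * H (y / 2) + y / 2 - z - 1) .zp
        else .none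
      else .none
    else if 2 ≤ r ∧ r ≤ c - 2 then .copy y w X
    else .none
  else .none

/-- Parameters of a step of the construction. -/
structure GP where
  (a b c τ x0 x1 Λ : ℤ)
  (H : ℤ → ℤ)
  hb : 3 ≤ b
  hc : 5 ≤ c
  hτ : 2 * c + 2 ≤ τ
  hτa : τ ≤ a - 2
  hx0 : x0 % c = 0
  hx1 : x1 % c = 0
  hx01 : x0 < x1
  hΛ : Λ = c * (b + 1)
  hH : ∀ t, 2 ≤ t → t ≤ c - 2 → 2 * H t = Λ + t * (b - 1)

namespace GP

variable (G : GP)

/-- the classification -/
def cls : V → Cls
  | (x, y, z) => K G.a G.b G.c G.τ G.x0 G.x1 G.Λ G.H x y z (x % G.c) (z / G.b) (z % G.b)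

lemma msucc (x c : ℤ) (hc : 3 ≤ c) :
    (x % c = c - 1 ∧ (x + 1) % c = 0 ∧ (x + 1) / c = x / c + 1) ∨
    (x % c < c - 1 ∧ (x + 1) % c = x % c + 1 ∧ (x + 1) / c = x / c) := by
  have h1 := Int.emod_nonneg x (show c ≠ 0 by omega)
  have h2 := Int.emod_lt_of_pos x (show 0 < c by omega)
  have h3 := Int.emod_add_mul_ediv x c
  have hc0 : c ≠ 0 := by omega
  by_cases h : x % c = c - 1
  · left
    have e : x + 1 = 0 + c * (x / c + 1) := by linarith
    refine ⟨h, ?_, ?_⟩
    · rw [e, Int.add_mul_emod_self_left]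
      rfl
    · rw [e, Int.add_mul_ediv_left _ _ hc0]
      simp
  · right
    have e : x + 1 = (x % c + 1) + c * (x / c) := by linarith
    have e1 : (x % c + 1 + c * (x / c)) % c = (x % c + 1) := by
      rw [Int.add_mul_emod_self_left, Int.emod_eq_of_lt (by omega) (by omega)]
    have e2 : (x % c + 1 + c * (x / c)) / c = x / c := by
      rw [Int.add_mul_ediv_left _ _ hc0, Int.ediv_eq_zero_of_lt (by omega) (by omega)]
      ring
    refine ⟨by omega, ?_, ?_⟩
    · rw [e, e1]
    · rw [e, e2]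

lemma mpred (x c : ℤ) (hc : 3 ≤ c) :
    (x % c = 0 ∧ (x - 1) % c = c - 1 ∧ (x - 1) / c = x / c - 1) ∨
    (0 < x % c ∧ (x - 1) % c = x % c - 1 ∧ (x - 1) / c = x / c) := by
  have h := msucc (x - 1) c hc
  have h1 := Int.emod_nonneg (x - 1) (show c ≠ 0 by omega)
  rw [show x - 1 + 1 = x by ring] at h
  omega

/-- Facts about a point and its neighbours that are used by `omega`. -/
structure Facts (x y z : ℤ) : Prop where
  mx1 : (x % G.c = G.c - 1 ∧ (x + 1) % G.c = 0) ∨ (x % G.c < G.c - 1 ∧ (x + 1) % G.c = x % G.c + 1)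
  mx2 : (x % G.c = 0 ∧ (x - 1) % G.c = G.c - 1) ∨ (0 < x % G.c ∧ (x - 1) % G.c = x % G.c - 1)
  dz1 : (z % G.b = G.b - 1 ∧ (z + 1) % G.b = 0 ∧ (z + 1) / G.b = z / G.b + 1) ∨
    (z % G.b < G.b - 1 ∧ (z + 1) % G.b = z % G.b + 1 ∧ (z + 1) / G.b = z / G.b)
  dz2 : (z % G.b = 0 ∧ (z - 1) % G.b = G.b - 1 ∧ (z - 1) / G.b = z / G.b - 1) ∨
    (0 < z % G.b ∧ (z - 1) % G.b = z % G.b - 1 ∧ (z - 1) / G.b = z / G.b)
  x1' : x + 1 = G.x1 → (x + 1) % G.c = 0
  x0' : x = G.x0 → x % G.c = 0
  xx : 0 ≤ x % G.c ∧ x % G.c < G.c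
  zz : 0 ≤ z % G.b ∧ z % G.b < G.b
  z0 : 0 < z → 0 ≤ z / G.b
  z1 : z = 0 → z / G.b = 0
  zu : z / G.b ≤ G.c - 2 → z + G.b + 1 ≤ G.c * G.b
  cb : G.b + 1 ≤ G.c * G.b
  zb : z < G.b → z / G.b ≤ 0
  zb2 : 1 ≤ z / G.b → G.b ≤ z

lemma facts (x y z : ℤ) : G.Facts x y z := by
  have hb := G.hb
  have hc := G.hc
  have b0 : G.b ≠ 0 := by omega
  have c0 : G.c ≠ 0 := by omega
  have z1 := Int.emod_nonneg z b0
  have z2 := Int.emod_lt_of_pos z (show 0 < G.b by omega)
  have z3 := Int.emod_add_mul_ediv z G.b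
  refine ⟨?_, ?_, msucc z G.b hb, mpred z G.b hb, ?_, ?_,
    ⟨Int.emod_nonneg x c0, Int.emod_lt_of_pos x (by omega)⟩, ⟨z1, z2⟩, ?_, ?_, ?_, ?_, ?_, ?_⟩
  · have := msucc x G.c (by omega)
    omega
  · have := mpred x G.c (by omega)
    omega
  · intro h; rw [h]; exact G.hx1
  · intro h; rw [h]; exact G.hx0
  · intro h; exact Int.ediv_nonneg h.le (by omega)
  · intro h; rw [h]; simp
  · intro h
    nlinarith
  · nlinarith
  · intro h
    by_contra hc
    push Not at hc
    nlinarith
  · intro h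
    nlinarith

/-- Facts about the detour heights. -/
structure HFacts (y z : ℤ) : Prop where
  rH : y % 2 = 0 ∧ 4 ≤ y ∧ y ≤ 2 * (G.c - 2) → z = G.H (y / 2) → y / 2 + 1 ≤ z / G.b
  low : y % 2 = 0 ∧ 4 ≤ y ∧ y ≤ 2 * (G.c - 2) → 4 ≤ G.H (y / 2)
  up : y % 2 = 0 ∧ 4 ≤ y ∧ y ≤ 2 * (G.c - 2) → G.H (y / 2) + 2 ≤ G.c * G.b
  bot : y % 2 = 0 ∧ 4 ≤ y ∧ y ≤ 2 * (G.c - 2) → z % G.b = 0 → z / G.b = y / 2 →
    2 * G.H (y / 2) + y / 2 - z = G.Λ ∧ z < G.H (y / 2)

lemma hfacts (y z : ℤ) : G.HFacts y z := by
  have hb := G.hb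
  have hc := G.hc
  have b0 : G.b ≠ 0 := by omega
  have z1 := Int.emod_nonneg z b0
  have z2 := Int.emod_lt_of_pos z (show 0 < G.b by omega)
  have z3 := Int.emod_add_mul_ediv z G.b
  have key : y % 2 = 0 ∧ 4 ≤ y ∧ y ≤ 2 * (G.c - 2) → 2 ≤ y / 2 ∧ y / 2 ≤ G.c - 2 ∧
      2 * G.H (y / 2) = G.c * (G.b + 1) + (y / 2) * (G.b - 1) := by
    intro h
    have h1 : 2 ≤ y / 2 := by omega
    have h2 : y / 2 ≤ G.c - 2 := by omega
    have h3 := G.hH _ h1 h2
    rw [G.hΛ] at h3
    exact ⟨h1, h2, h3⟩
  constructor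
  · intro h hz
    obtain ⟨h1, h2, h3⟩ := key h
    rw [← hz] at h3
    by_contra hh
    push Not at hh
    have h4 : z / G.b ≤ y / 2 := by omega
    nlinarith
  · intro h
    obtain ⟨h1, h2, h3⟩ := key h
    nlinarith
  · intro h
    obtain ⟨h1, h2, h3⟩ := key h
    nlinarith
  · intro h hz hzy
    obtain ⟨h1, h2, h3⟩ := key h
    rw [hz, hzy] at z3
    have hΛ := G.hΛ
    constructor
    · nlinarith
    · nlinarith


section K

variable {a b c τ x0 x1 Λ : ℤ} {H : ℤ → ℤ} {x y z X r w : ℤ}

/-- the part of the range condition which is common to all cases -/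
def InR (a b c x0 x1 x y z : ℤ) : Prop :=
  x0 ≤ x ∧ x < x1 ∧ 0 < y ∧ y < a ∧ 0 < z ∧ z < c * b

lemma K_trunk (hx : x0 ≤ x ∧ x ≤ x1) (ha : 0 < a) (hcb : 0 < c * b) :
    K a b c τ x0 x1 Λ H x 0 0 X r w = .trunk (x - x0) := by
  unfold K
  rw [if_pos (by omega), if_pos rfl, if_pos rfl]

lemma K_A (hx : x0 ≤ x ∧ x < x1) (hy : 1 ≤ y ∧ y < a) (hcb : 0 < c * b)
    (hX : ¬ (2 ≤ X ∧ X ≤ c - 2 ∧ 2 * X < y)) :
    K a b c τ x0 x1 Λ H x y 0 X r w = .br (y - 1) .ym := by
  unfold K
  rw [if_pos (by omega), if_neg (by omega), if_neg (by omega), if_pos rfl, if_neg hX]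

lemma K_E (h : InR a b c x0 x1 x y z) (hy : y < τ)
    (hE : X = 0 ∧ w = 0 ∧ 2 ≤ r ∧ r ≤ c - 2 ∧ 2 * r < y) :
    K a b c τ x0 x1 Λ H x y z X r w = .br (y + Λ - 1) .ym := by
  unfold InR at h
  unfold K
  rw [if_pos (by omega), if_neg (by omega), if_neg (by omega), if_neg (by omega),
    if_pos (by omega), if_pos hE]

lemma K_B (h : InR a b c x0 x1 x y z) (hy : y < τ)
    (hE : y % 2 = 0 ∧ 4 ≤ y ∧ y ≤ 2 * (c - 2)) (h1 : X = y / 2) (h2 : z ≤ H (y / 2)) :
    K a b c τ x0 x1 Λ H x y z X r w = .br (y + z - 1) .zm := by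
  unfold InR at h
  unfold K
  rw [if_pos (by omega), if_neg (by omega), if_neg (by omega), if_neg (by omega),
    if_pos (by omega), if_neg (by omega), if_pos hE, if_pos ⟨h1, h2⟩]

lemma K_C (h : InR a b c x0 x1 x y z) (hy : y < τ)
    (hE : y % 2 = 0 ∧ 4 ≤ y ∧ y ≤ 2 * (c - 2)) (h1 : X < y / 2) (h2 : z = H (y / 2))
    (h3 : y / 2 ≤ r) :
    K a b c τ x0 x1 Λ H x y z X r w
      = .br (y + H (y / 2) + (y / 2 - X) - 1) .xp := by
  unfold InR at h
  unfold K
  rw [if_pos (by omega), if_neg (by omega), if_neg (by omega), if_neg (by omega),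
    if_pos (by omega), if_neg (by omega), if_pos hE, if_neg (by omega), if_pos ⟨h2, h1⟩]

lemma K_D (h : InR a b c x0 x1 x y z) (hy : y < τ)
    (hE : y % 2 = 0 ∧ 4 ≤ y ∧ y ≤ 2 * (c - 2)) (h1 : X = 0) (h2 : z < H (y / 2))
    (h3 : y / 2 ≤ r) :
    K a b c τ x0 x1 Λ H x y z X r w
      = .br (y + 2 * H (y / 2) + y / 2 - z - 1) .zp := by
  unfold InR at h
  unfold K
  rw [if_pos (by omega), if_neg (by omega), if_neg (by omega), if_neg (by omega),
    if_pos (by omega), if_neg (by omega), if_pos hE, if_neg (by omega), if_neg (by omega),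
    if_pos ⟨h1, h3, h2⟩]

lemma K_copy (h : InR a b c x0 x1 x y z) (hy : τ ≤ y) (hr : 2 ≤ r ∧ r ≤ c - 2) :
    K a b c τ x0 x1 Λ H x y z X r w = .copy y w X := by
  unfold InR at h
  unfold K
  rw [if_pos (by omega), if_neg (by omega), if_neg (by omega), if_neg (by omega),
    if_neg (by omega), if_pos hr]

lemma K_n_range (h : ¬ (x0 ≤ x ∧ x ≤ x1 ∧ 0 ≤ y ∧ y < a ∧ 0 ≤ z ∧ z < c * b)) :
    K a b c τ x0 x1 Λ H x y z X r w = .none := by
  unfold K
  rw [if_neg h]

lemma K_n_y0 (hz : z ≠ 0) :
    K a b c τ x0 x1 Λ H x 0 z X r w = .none := by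
  unfold K
  rw [if_pos rfl, if_neg hz]
  simp

lemma K_n_x1 (hy : y ≠ 0) :
    K a b c τ x0 x1 Λ H x1 y z X r w = .none := by
  unfold K
  rw [if_neg hy, if_pos rfl]
  simp

lemma K_n_A (hy : y ≠ 0) (hX : (2 ≤ X ∧ X ≤ c - 2 ∧ 2 * X < y)) :
    K a b c τ x0 x1 Λ H x y 0 X r w = .none := by
  unfold K
  rw [if_neg hy, if_pos rfl, if_pos hX]
  simp

lemma K_n_R (hy0 : y ≠ 0) (hz : z ≠ 0) (hy : y < τ)
    (hE : ¬ (X = 0 ∧ w = 0 ∧ 2 ≤ r ∧ r ≤ c - 2 ∧ 2 * r < y))
    (hP : y % 2 = 0 ∧ 4 ≤ y ∧ y ≤ 2 * (c - 2) →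
      ¬ (X = y / 2 ∧ z ≤ H (y / 2)) ∧ ¬ (z = H (y / 2) ∧ X < y / 2) ∧
      ¬ (X = 0 ∧ y / 2 ≤ r ∧ z < H (y / 2))) :
    K a b c τ x0 x1 Λ H x y z X r w = .none := by
  unfold K
  rw [if_neg hy0, if_neg hz, if_pos hy, if_neg hE]
  by_cases h : y % 2 = 0 ∧ 4 ≤ y ∧ y ≤ 2 * (c - 2)
  · obtain ⟨h1, h2, h3⟩ := hP h
    rw [if_pos h, if_neg h1, if_neg h2, if_neg h3]
    simp
  · rw [if_neg h]
    simp

lemma K_n_copy (hy0 : y ≠ 0) (hz : z ≠ 0) (hy : ¬ y < τ) (hr : ¬ (2 ≤ r ∧ r ≤ c - 2)) :
    K a b c τ x0 x1 Λ H x y z X r w = .none := by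
  unfold K
  rw [if_neg hy0, if_neg hz, if_neg hy, if_neg hr]
  simp

end K


/-- The neighbourhood of a branch vertex of depth `i` whose parent is in direction `d`. -/
structure BrNb (p : V) (i : ℤ) (d : Dir) : Prop where
  i0 : 0 ≤ i
  par0 : i = 0 → d ≠ .xp ∧ ∃ m, G.cls (d.mv p) = .trunk m ∧ 0 ≤ m ∧ m < G.x1 - G.x0
  par1 : i ≠ 0 → ∃ d', G.cls (d.mv p) = .br (i - 1) d' ∧ d' ≠ d.neg
  ch : ∃ e, e ≠ d ∧ (G.cls (e.mv p) = .br (i + 1) e.neg ∨
      (e = .yp ∧ i + 1 = G.τ + G.Λ - 1 ∧ G.cls (e.mv p) = .copy G.τ 0 0)) ∧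
    ∀ e', e' ≠ d → e' ≠ e → (G.cls (e'.mv p) = .none ∨
      ∃ d', G.cls (e'.mv p) = .br i d' ∧ d' ≠ e'.neg)

lemma br_A_side (x y : ℤ) (hx : G.x0 ≤ x) (hx1 : x < G.x1) (hy : 1 ≤ y) (hya : y ≤ G.a - 2)
    (e : Dir) (he : e = .xp ∨ e = .xm) :
    (G.cls (e.mv (x, y, 0)) = .none ∨
      ∃ d', G.cls (e.mv (x, y, 0)) = .br (y - 1) d' ∧ d' ≠ e.neg) := by
  have cb := (G.facts x y 0).cb
  have hb := G.hb
  rcases he with rfl | rfl
  · by_cases h1 : x + 1 = G.x1
    · left
      simp only [cls, mv, h1]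
      exact K_n_x1 (by omega)
    · by_cases h2 : (2 ≤ (x+1) % G.c ∧ (x+1) % G.c ≤ G.c - 2 ∧ 2 * ((x+1) % G.c) < y)
      · left
        exact K_n_A (by omega) h2
      · right
        exact ⟨.ym, K_A (by omega) (by omega) (by omega) h2, by decide⟩
  · by_cases h1 : x - 1 < G.x0
    · left
      exact K_n_range (by omega)
    · by_cases h2 : (2 ≤ (x-1) % G.c ∧ (x-1) % G.c ≤ G.c - 2 ∧ 2 * ((x-1) % G.c) < y)
      · left
        exact K_n_A (by omega) h2
      · right
        exact ⟨.ym, K_A (by omega) (by omega) (by omega) h2, by decide⟩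

lemma br_A (x y : ℤ) (hx : G.x0 ≤ x) (hx1 : x < G.x1) (hy : 1 ≤ y) (hya : y ≤ G.a - 2)
    (hX : ¬ (2 ≤ x % G.c ∧ x % G.c ≤ G.c - 2 ∧ 2 * (x % G.c) < y)) :
    G.BrNb (x, y, 0) (y - 1) .ym := by
  have hb := G.hb
  have hc := G.hc
  have hτ := G.hτ
  have hτa := G.hτa
  have cb := (G.facts x y 0).cb
  have xx := (G.facts x y 0).xx
  have hz : (0 + 1) / G.b = 0 ∧ (0 + 1) % G.b = 1 :=
    ⟨Int.ediv_eq_zero_of_lt (by omega) (by omega), Int.emod_eq_of_lt (by omega) (by omega)⟩
  refine ⟨by omega, ?_, ?_, ?_⟩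
  · intro hi
    refine ⟨by decide, x - G.x0, ?_, by omega, by omega⟩
    have : y - 1 = 0 := hi
    simp only [cls, mv, this]
    exact K_trunk (by omega) (by omega) (by omega)
  · intro hi
    exact ⟨.ym, K_A (by omega) (by omega) (by omega) (by omega), by decide⟩
  · by_cases hB : 2 ≤ x % G.c ∧ x % G.c ≤ G.c - 2 ∧ 2 * (x % G.c) = y
    · have hp : y % 2 = 0 ∧ 4 ≤ y ∧ y ≤ 2 * (G.c - 2) := by omega
      have low := (G.hfacts y 0).low hp
      refine ⟨.zp, by decide, Or.inl ?_, ?_⟩
      · have := K_B (a := G.a) (b := G.b) (c := G.c) (τ := G.τ) (x0 := G.x0) (x1 := G.x1)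
          (Λ := G.Λ) (H := G.H) (x := x) (y := y) (z := 0 + 1) (X := x % G.c)
          (r := (0 + 1) / G.b) (w := (0 + 1) % G.b) ⟨hx, hx1, by omega, by omega, by omega,
            by omega⟩ (by omega) hp (by omega) (by omega)
        simp only [cls, mv]
        rw [this]
        congr 1
        omega
      · intro e he1 he2
        cases e with
        | xp => exact G.br_A_side x y hx hx1 hy hya _ (Or.inl rfl)
        | xm => exact G.br_A_side x y hx hx1 hy hya _ (Or.inr rfl)
        | yp => left; exact K_n_A (by omega) (by omega)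
        | ym => exact absurd rfl he1
        | zp => exact absurd rfl he2
        | zm => left; exact K_n_range (by omega)
    · refine ⟨.yp, by decide, Or.inl ?_, ?_⟩
      · simp only [cls, mv]
        rw [K_A (by omega) (by omega) (by omega) (by omega)]
        congr 1
        omega
      · intro e he1 he2
        cases e with
        | xp => exact G.br_A_side x y hx hx1 hy hya _ (Or.inl rfl)
        | xm => exact G.br_A_side x y hx hx1 hy hya _ (Or.inr rfl)
        | yp => exact absurd rfl he2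
        | ym => exact absurd rfl he1
        | zp =>
          left
          simp only [cls, mv]
          by_cases hyt : y < G.τ
          · refine K_n_R (by omega) (by omega) hyt (by omega) ?_
            intro hp
            have low := (G.hfacts y 0).low hp
            omega
          · exact K_n_copy (by omega) (by omega) hyt (by omega)
        | zm => left; exact K_n_range (by omega)


lemma br_E (x y z : ℤ) (hx : G.x0 ≤ x) (hx1 : x < G.x1) (hy : y < G.τ)
    (hE : x % G.c = 0 ∧ z % G.b = 0 ∧ 2 ≤ z / G.b ∧ z / G.b ≤ G.c - 2 ∧ 2 * (z / G.b) < y) :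
    G.BrNb (x, y, z) (y + G.Λ - 1) .ym := by
  have hb := G.hb
  have hc := G.hc
  have hτ := G.hτ
  have hτa := G.hτa
  obtain ⟨hE1, hE2, hE3, hE4, hE5⟩ := hE
  have zb2 := (G.facts x y z).zb2 (by omega)
  have zu := (G.facts x y z).zu hE4
  have hΛ : 0 < G.Λ := by rw [G.hΛ]; nlinarith
  refine ⟨by omega, fun h => by omega, ?_, ?_⟩
  · intro _
    by_cases h1 : 2 * (z / G.b) < y - 1
    · refine ⟨.ym, ?_, by decide⟩
      simp only [cls, mv]
      rw [K_E ⟨hx, hx1, by omega, by omega, by omega, by omega⟩ (by omega)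
        ⟨hE1, hE2, hE3, hE4, h1⟩]
      congr 1
      omega
    · refine ⟨.zp, ?_, by decide⟩
      have hp : (y - 1) % 2 = 0 ∧ 4 ≤ y - 1 ∧ y - 1 ≤ 2 * (G.c - 2) := by omega
      obtain ⟨bot1, bot2⟩ := (G.hfacts (y - 1) z).bot hp hE2 (by omega)
      simp only [cls, mv]
      rw [K_D ⟨hx, hx1, by omega, by omega, by omega, by omega⟩ (by omega) hp hE1 bot2
        (by omega)]
      congr 1
      omega
  · refine ⟨.yp, by decide, ?_, ?_⟩
    · by_cases h1 : y + 1 < G.τ
      · left
        simp only [cls, mv]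
        rw [K_E ⟨hx, hx1, by omega, by omega, by omega, by omega⟩ (by omega)
          ⟨hE1, hE2, hE3, hE4, by omega⟩]
        congr 1
        omega
      · right
        refine ⟨rfl, by omega, ?_⟩
        simp only [cls, mv]
        rw [K_copy ⟨hx, hx1, by omega, by omega, by omega, by omega⟩ (by omega)
          ⟨hE3, hE4⟩, hE1, hE2]
        congr 1
        omega
    · intro e he1 he2
      left
      cases e with
      | xp =>
        have mx1 := (G.facts x y z).mx1
        refine K_n_R (by omega) (by omega) hy (by omega) ?_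
        intro hp
        have rH := (G.hfacts y z).rH hp
        omega
      | xm =>
        have mx2 := (G.facts x y z).mx2
        refine K_n_R (by omega) (by omega) hy (by omega) ?_
        intro hp
        have rH := (G.hfacts y z).rH hp
        omega
      | yp => exact absurd rfl he2
      | ym => exact absurd rfl he1
      | zp =>
        have dz1 := (G.facts x y z).dz1
        refine K_n_R (by omega) (by omega) hy (by omega) ?_
        intro hp
        have rH := (G.hfacts y (z + 1)).rH hp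
        omega
      | zm =>
        have dz2 := (G.facts x y z).dz2
        refine K_n_R (by omega) (by omega) hy (by omega) ?_
        intro hp
        have rH := (G.hfacts y (z - 1)).rH hp
        omega

lemma br_B (x y z : ℤ) (hx : G.x0 ≤ x) (hx1 : x < G.x1) (hz : 1 ≤ z)
    (hp : y % 2 = 0 ∧ 4 ≤ y ∧ y ≤ 2 * (G.c - 2)) (hX : x % G.c = y / 2)
    (hzH : z ≤ G.H (y / 2)) :
    G.BrNb (x, y, z) (y + z - 1) .zm := by
  have hb := G.hb
  have hc := G.hc
  have hτ := G.hτ
  have hτa := G.hτa
  have up := (G.hfacts y z).up hp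
  refine ⟨by omega, fun h => by omega, ?_, ?_⟩
  · intro _
    by_cases h1 : z = 1
    · subst h1
      refine ⟨.ym, ?_, by decide⟩
      simp only [cls, mv]
      rw [show (1 : ℤ) - 1 = 0 by norm_num, K_A ⟨hx, hx1⟩ (by omega) (by omega) (by omega)]
      congr 1
      omega
    · refine ⟨.zm, ?_, by decide⟩
      simp only [cls, mv]
      rw [K_B ⟨hx, hx1, by omega, by omega, by omega, by omega⟩ (by omega) hp hX (by omega)]
      congr 1
      omega
  · by_cases h1 : z < G.H (y / 2)
    · refine ⟨.zp, by decide, Or.inl ?_, ?_⟩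
      · simp only [cls, mv]
        rw [K_B ⟨hx, hx1, by omega, by omega, by omega, by omega⟩ (by omega) hp hX (by omega)]
        congr 1
        omega
      · intro e he1 he2
        left
        cases e with
        | xp =>
          have mx1 := (G.facts x y z).mx1
          refine K_n_R (by omega) (by omega) (by omega) (by omega) ?_
          intro _
          omega
        | xm =>
          have mx2 := (G.facts x y z).mx2
          refine K_n_R (by omega) (by omega) (by omega) (by omega) ?_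
          intro _
          omega
        | yp => exact K_n_R (by omega) (by omega) (by omega) (by omega) (by omega)
        | ym => exact K_n_R (by omega) (by omega) (by omega) (by omega) (by omega)
        | zp => exact absurd rfl he2
        | zm => exact absurd rfl he1
    · have hzH' : z = G.H (y / 2) := by omega
      have rH := (G.hfacts y z).rH hp hzH'
      refine ⟨.xm, by decide, Or.inl ?_, ?_⟩
      · have mx2 := (G.facts x y z).mx2
        have x0' := (G.facts x y z).x0'
        simp only [cls, mv]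
        rw [K_C ⟨by omega, by omega, by omega, by omega, by omega, by omega⟩ (by omega) hp
          (by omega) hzH' (by omega)]
        congr 1
        omega
      · intro e he1 he2
        left
        cases e with
        | xp =>
          have mx1 := (G.facts x y z).mx1
          refine K_n_R (by omega) (by omega) (by omega) (by omega) ?_
          intro _
          omega
        | xm => exact absurd rfl he2
        | yp => exact K_n_R (by omega) (by omega) (by omega) (by omega) (by omega)
        | ym => exact K_n_R (by omega) (by omega) (by omega) (by omega) (by omega)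
        | zp =>
          refine K_n_R (by omega) (by omega) (by omega) (by omega) ?_
          intro _
          omega
        | zm => exact absurd rfl he1

lemma br_C (x y z : ℤ) (hx : G.x0 ≤ x) (hx1 : x < G.x1)
    (hp : y % 2 = 0 ∧ 4 ≤ y ∧ y ≤ 2 * (G.c - 2)) (hX : x % G.c < y / 2)
    (hzH : z = G.H (y / 2)) :
    G.BrNb (x, y, z) (y + G.H (y / 2) + (y / 2 - x % G.c) - 1) .xp := by
  have hb := G.hb
  have hc := G.hc
  have hτ := G.hτ
  have hτa := G.hτa
  have up := (G.hfacts y z).up hp
  have low := (G.hfacts y z).low hp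
  have rH := (G.hfacts y z).rH hp hzH
  have xx := (G.facts x y z).xx
  refine ⟨by omega, fun h => by omega, ?_, ?_⟩
  · intro _
    have mx1 := (G.facts x y z).mx1
    have x1' := (G.facts x y z).x1'
    by_cases h1 : x % G.c + 1 = y / 2
    · refine ⟨.zm, ?_, by decide⟩
      simp only [cls, mv]
      rw [K_B ⟨by omega, by omega, by omega, by omega, by omega, by omega⟩ (by omega) hp
        (by omega) (by omega)]
      congr 1
      omega
    · refine ⟨.xp, ?_, by decide⟩
      simp only [cls, mv]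
      rw [K_C ⟨by omega, by omega, by omega, by omega, by omega, by omega⟩ (by omega) hp
        (by omega) hzH (by omega)]
      congr 1
      omega
  · by_cases h1 : 0 < x % G.c
    · refine ⟨.xm, by decide, Or.inl ?_, ?_⟩
      · have mx2 := (G.facts x y z).mx2
        have x0' := (G.facts x y z).x0'
        simp only [cls, mv]
        rw [K_C ⟨by omega, by omega, by omega, by omega, by omega, by omega⟩ (by omega) hp
          (by omega) hzH (by omega)]
        congr 1
        omega
      · intro e he1 he2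
        left
        cases e with
        | xp => exact absurd rfl he1
        | xm => exact absurd rfl he2
        | yp => exact K_n_R (by omega) (by omega) (by omega) (by omega) (by omega)
        | ym => exact K_n_R (by omega) (by omega) (by omega) (by omega) (by omega)
        | zp =>
          refine K_n_R (by omega) (by omega) (by omega) (by omega) ?_
          intro _
          omega
        | zm =>
          refine K_n_R (by omega) (by omega) (by omega) (by omega) ?_
          intro _
          omega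
    · refine ⟨.zm, by decide, Or.inl ?_, ?_⟩
      · have dz2 := (G.facts x y z).dz2
        simp only [cls, mv]
        rw [K_D ⟨by omega, by omega, by omega, by omega, by omega, by omega⟩ (by omega) hp
          (by omega) (by omega) (by omega)]
        congr 1
        omega
      · intro e he1 he2
        left
        cases e with
        | xp => exact absurd rfl he1
        | xm =>
          have mx2 := (G.facts x y z).mx2
          refine K_n_R (by omega) (by omega) (by omega) (by omega) ?_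
          intro _
          omega
        | yp => exact K_n_R (by omega) (by omega) (by omega) (by omega) (by omega)
        | ym => exact K_n_R (by omega) (by omega) (by omega) (by omega) (by omega)
        | zp =>
          have dz1 := (G.facts x y z).dz1
          refine K_n_R (by omega) (by omega) (by omega) (by omega) ?_
          intro _
          omega
        | zm => exact absurd rfl he2

lemma br_D (x y z : ℤ) (hx : G.x0 ≤ x) (hx1 : x < G.x1)
    (hp : y % 2 = 0 ∧ 4 ≤ y ∧ y ≤ 2 * (G.c - 2)) (hX : x % G.c = 0)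
    (hr : y / 2 ≤ z / G.b) (hzH : z < G.H (y / 2)) :
    G.BrNb (x, y, z) (y + 2 * G.H (y / 2) + y / 2 - z - 1) .zp := by
  have hb := G.hb
  have hc := G.hc
  have hτ := G.hτ
  have hτa := G.hτa
  have up := (G.hfacts y z).up hp
  have zb2 := (G.facts x y z).zb2 (by omega)
  refine ⟨by omega, fun h => by omega, ?_, ?_⟩
  · intro _
    have dz1 := (G.facts x y z).dz1
    by_cases h1 : z + 1 < G.H (y / 2)
    · refine ⟨.zp, ?_, by decide⟩
      simp only [cls, mv]
      rw [K_D ⟨by omega, by omega, by omega, by omega, by omega, by omega⟩ (by omega) hp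
        (by omega) (by omega) (by omega)]
      congr 1
      omega
    · refine ⟨.xp, ?_, by decide⟩
      simp only [cls, mv]
      rw [K_C ⟨by omega, by omega, by omega, by omega, by omega, by omega⟩ (by omega) hp
        (by omega) (by omega) (by omega)]
      congr 1
      omega
  · by_cases h1 : z % G.b = 0 ∧ z / G.b = y / 2
    · obtain ⟨bot1, bot2⟩ := (G.hfacts y z).bot hp h1.1 h1.2
      refine ⟨.yp, by decide, Or.inl ?_, ?_⟩
      · simp only [cls, mv]
        rw [K_E ⟨by omega, by omega, by omega, by omega, by omega, by omega⟩ (by omega)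
          (by omega)]
        congr 1
        omega
      · intro e he1 he2
        left
        cases e with
        | xp =>
          have mx1 := (G.facts x y z).mx1
          refine K_n_R (by omega) (by omega) (by omega) (by omega) ?_
          intro _
          omega
        | xm =>
          have mx2 := (G.facts x y z).mx2
          refine K_n_R (by omega) (by omega) (by omega) (by omega) ?_
          intro _
          omega
        | yp => exact absurd rfl he2
        | ym => exact K_n_R (by omega) (by omega) (by omega) (by omega) (by omega)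
        | zp => exact absurd rfl he1
        | zm =>
          have dz2 := (G.facts x y z).dz2
          refine K_n_R (by omega) (by omega) (by omega) (by omega) ?_
          intro _
          omega
    · refine ⟨.zm, by decide, Or.inl ?_, ?_⟩
      · have dz2 := (G.facts x y z).dz2
        have zz := (G.facts x y z).zz
        simp only [cls, mv]
        rw [K_D ⟨by omega, by omega, by omega, by omega, by omega, by omega⟩ (by omega) hp
          (by omega) (by omega) (by omega)]
        congr 1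
        omega
      · intro e he1 he2
        left
        cases e with
        | xp =>
          have mx1 := (G.facts x y z).mx1
          refine K_n_R (by omega) (by omega) (by omega) (by omega) ?_
          intro _
          omega
        | xm =>
          have mx2 := (G.facts x y z).mx2
          refine K_n_R (by omega) (by omega) (by omega) (by omega) ?_
          intro _
          omega
        | yp =>
          refine K_n_R (by omega) (by omega) (by omega) (by omega) ?_
          intro _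
          omega
        | ym => exact K_n_R (by omega) (by omega) (by omega) (by omega) (by omega)
        | zp => exact absurd rfl he1
        | zm => exact absurd rfl he2


lemma br_all (x y z i : ℤ) (d : Dir) (h : G.cls (x, y, z) = .br i d) (hi : i ≤ G.a - 3) :
    G.BrNb (x, y, z) i d ∧ (G.x0 ≤ x ∧ x < G.x1) ∧ (1 ≤ y ∧ y ≤ G.a - 2) ∧
      (0 ≤ z ∧ z ≤ G.c * G.b - 2) := by
  have hb := G.hb
  have hc := G.hc
  have hτ := G.hτ
  have hτa := G.hτa
  have cb := (G.facts x y z).cb
  simp only [cls, K] at h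
  by_cases hR : G.x0 ≤ x ∧ x ≤ G.x1 ∧ 0 ≤ y ∧ y < G.a ∧ 0 ≤ z ∧ z < G.c * G.b
  swap
  · rw [if_neg hR] at h; simp at h
  rw [if_pos hR] at h
  by_cases hy0 : y = 0
  · rw [if_pos hy0] at h
    split_ifs at h
  rw [if_neg hy0] at h
  by_cases hxx : x = G.x1
  · rw [if_pos hxx] at h; simp at h
  rw [if_neg hxx] at h
  by_cases hz0 : z = 0
  · rw [if_pos hz0] at h
    subst hz0
    by_cases hA : 2 ≤ x % G.c ∧ x % G.c ≤ G.c - 2 ∧ 2 * (x % G.c) < y
    · rw [if_pos hA] at h; simp at h
    · rw [if_neg hA] at h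
      injection h with h1 h2
      subst h1 h2
      exact ⟨G.br_A x y (by omega) (by omega) (by omega) (by omega) hA, by omega, by omega,
        by omega⟩
  rw [if_neg hz0] at h
  by_cases hyt : y < G.τ
  swap
  · rw [if_neg hyt] at h
    split_ifs at h
  rw [if_pos hyt] at h
  by_cases hE : x % G.c = 0 ∧ z % G.b = 0 ∧ 2 ≤ z / G.b ∧ z / G.b ≤ G.c - 2 ∧ 2 * (z / G.b) < y
  · rw [if_pos hE] at h
    injection h with h1 h2
    subst h1 h2
    have zu := (G.facts x y z).zu hE.2.2.2.1
    exact ⟨G.br_E x y z (by omega) (by omega) hyt hE, by omega, by omega, by omega⟩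
  rw [if_neg hE] at h
  by_cases hp : y % 2 = 0 ∧ 4 ≤ y ∧ y ≤ 2 * (G.c - 2)
  swap
  · rw [if_neg hp] at h; simp at h
  rw [if_pos hp] at h
  have up := (G.hfacts y z).up hp
  by_cases hB : x % G.c = y / 2 ∧ z ≤ G.H (y / 2)
  · rw [if_pos hB] at h
    injection h with h1 h2
    subst h1 h2
    exact ⟨G.br_B x y z (by omega) (by omega) (by omega) hp hB.1 hB.2, by omega, by omega,
      by omega⟩
  rw [if_neg hB] at h
  by_cases hC : z = G.H (y / 2) ∧ x % G.c < y / 2
  · rw [if_pos hC] at h
    injection h with h1 h2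
    subst h1 h2
    exact ⟨G.br_C x y z (by omega) (by omega) hp hC.2 hC.1, by omega, by omega, by omega⟩
  rw [if_neg hC] at h
  by_cases hD : x % G.c = 0 ∧ y / 2 ≤ z / G.b ∧ z < G.H (y / 2)
  · rw [if_pos hD] at h
    injection h with h1 h2
    subst h1 h2
    exact ⟨G.br_D x y z (by omega) (by omega) hp hD.1 hD.2.1 hD.2.2, by omega, by omega,
      by omega⟩
  · rw [if_neg hD] at h; simp at h

/-- trunk vertices -/
lemma trunk_all (x y z m : ℤ) (h : G.cls (x, y, z) = .trunk m) :
    y = 0 ∧ z = 0 ∧ m = x - G.x0 ∧ 0 ≤ m ∧ m ≤ G.x1 - G.x0 ∧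
    G.cls (Dir.xp.mv (x, y, z)) = (if m < G.x1 - G.x0 then .trunk (m + 1) else .none) ∧
    G.cls (Dir.xm.mv (x, y, z)) = (if 0 < m then .trunk (m - 1) else .none) ∧
    G.cls (Dir.yp.mv (x, y, z)) = (if m < G.x1 - G.x0 then .br 0 .ym else .none) ∧
    G.cls (Dir.ym.mv (x, y, z)) = .none ∧ G.cls (Dir.zp.mv (x, y, z)) = .none ∧
    G.cls (Dir.zm.mv (x, y, z)) = .none := by
  have hb := G.hb
  have hc := G.hc
  have hτ := G.hτ
  have hτa := G.hτa
  have cb := (G.facts x y z).cb
  have h0 : G.x0 ≤ x ∧ x ≤ G.x1 ∧ y = 0 ∧ z = 0 ∧ m = x - G.x0 := by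
    simp only [cls, K] at h
    by_cases hR : G.x0 ≤ x ∧ x ≤ G.x1 ∧ 0 ≤ y ∧ y < G.a ∧ 0 ≤ z ∧ z < G.c * G.b
    swap
    · rw [if_neg hR] at h; simp at h
    rw [if_pos hR] at h
    by_cases hy0 : y = 0
    · rw [if_pos hy0] at h
      by_cases hz0 : z = 0
      · rw [if_pos hz0] at h
        injection h with h1
        exact ⟨hR.1, hR.2.1, hy0, hz0, h1.symm⟩
      · rw [if_neg hz0] at h; simp at h
    rw [if_neg hy0] at h
    split_ifs at h
  obtain ⟨h1, h2, rfl, rfl, rfl⟩ := h0
  refine ⟨rfl, rfl, rfl, by omega, by omega, ?_, ?_, ?_, ?_, ?_, ?_⟩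
  · simp only [cls, mv]
    split_ifs with h3
    · rw [K_trunk (by omega) (by omega) (by omega)]
      congr 1; omega
    · exact K_n_range (by omega)
  · simp only [cls, mv]
    split_ifs with h3
    · rw [K_trunk (by omega) (by omega) (by omega)]
      congr 1; omega
    · exact K_n_range (by omega)
  · simp only [cls, mv]
    split_ifs with h3
    · rw [K_A (by omega) (by omega) (by omega) (by omega)]
      simp
    · have : x = G.x1 := by omega
      rw [this]
      exact K_n_x1 (by omega)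
  · exact K_n_range (by omega)
  · exact K_n_y0 (by omega)
  · exact K_n_range (by omega)

/-- points inside a copy -/
lemma copy_all (x y z o1 o2 o3 : ℤ) (h : G.cls (x, y, z) = .copy o1 o2 o3) :
    o1 = y ∧ o2 = z % G.b ∧ o3 = x % G.c ∧ G.x0 ≤ x ∧ x < G.x1 ∧ G.τ ≤ y ∧ y < G.a ∧
    2 ≤ z / G.b ∧ z / G.b ≤ G.c - 2 := by
  simp only [cls, K] at h
  by_cases hR : G.x0 ≤ x ∧ x ≤ G.x1 ∧ 0 ≤ y ∧ y < G.a ∧ 0 ≤ z ∧ z < G.c * G.b
  swap
  · rw [if_neg hR] at h; simp at h
  rw [if_pos hR] at h
  by_cases hy0 : y = 0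
  · rw [if_pos hy0] at h
    split_ifs at h
  rw [if_neg hy0] at h
  by_cases hxx : x = G.x1
  · rw [if_pos hxx] at h; simp at h
  rw [if_neg hxx] at h
  by_cases hz0 : z = 0
  · rw [if_pos hz0] at h
    split_ifs at h
  rw [if_neg hz0] at h
  by_cases hyt : y < G.τ
  · rw [if_pos hyt] at h
    split_ifs at h
  rw [if_neg hyt] at h
  by_cases hr : 2 ≤ z / G.b ∧ z / G.b ≤ G.c - 2
  · rw [if_pos hr] at h
    injection h with h1 h2 h3
    omega
  · rw [if_neg hr] at h; simp at h

/-- conversely: -/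
lemma cls_copy (x y z : ℤ) (hx : G.x0 ≤ x) (hx1 : x < G.x1) (hy : G.τ ≤ y) (hya : y < G.a)
    (hr : 2 ≤ z / G.b ∧ z / G.b ≤ G.c - 2) :
    G.cls (x, y, z) = .copy y (z % G.b) (x % G.c) := by
  have hb := G.hb
  have hc := G.hc
  have hτ := G.hτ
  have zb2 := (G.facts x y z).zb2 (by omega)
  have zu := (G.facts x y z).zu hr.2
  exact K_copy ⟨hx, hx1, by omega, hya, by omega, by omega⟩ hy hr


/-- outside the support box -/
def Out (o1 o2 o3 : ℤ) : Prop :=
  o1 < G.τ ∨ G.a - 2 < o1 ∨ o2 < 0 ∨ G.b - 2 < o2 ∨ o3 < 0 ∨ G.c - 2 < o3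

lemma copy_nb (x y z : ℤ) (hx : G.x0 ≤ x) (hx1 : x < G.x1) (hy : G.τ ≤ y) (hya : y ≤ G.a - 2)
    (hr : 2 ≤ z / G.b ∧ z / G.b ≤ G.c - 2) (hw : z % G.b ≤ G.b - 2)
    (hX : x % G.c ≤ G.c - 2) (e : Dir) :
    (G.cls (e.rot.mv (x, y, z)) = .copy (e.mv (y, z % G.b, x % G.c)).1
        (e.mv (y, z % G.b, x % G.c)).2.1 (e.mv (y, z % G.b, x % G.c)).2.2) ∨
    (G.Out (e.mv (y, z % G.b, x % G.c)).1 (e.mv (y, z % G.b, x % G.c)).2.1
        (e.mv (y, z % G.b, x % G.c)).2.2 ∧
      (G.cls (e.rot.mv (x, y, z)) = .none ∨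
        ∃ p q r, G.cls (e.rot.mv (x, y, z)) = .copy p q r ∧ G.Out p q r)) ∨
    (e = .xm ∧ y = G.τ ∧ z % G.b = 0 ∧ x % G.c = 0 ∧
      G.cls (e.rot.mv (x, y, z)) = .br (G.τ + G.Λ - 2) .ym) := by
  have hb := G.hb
  have hc := G.hc
  have hτ := G.hτ
  have hτa := G.hτa
  have zb2 := (G.facts x y z).zb2 (by omega)
  have zu := (G.facts x y z).zu hr.2
  cases e with
  | xp =>
    left
    exact G.cls_copy x (y + 1) z hx hx1 (by omega) (by omega) hr
  | xm =>
    by_cases h1 : G.τ ≤ y - 1
    · left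
      exact G.cls_copy x (y - 1) z hx hx1 (by omega) (by omega) hr
    · by_cases h2 : x % G.c = 0 ∧ z % G.b = 0
      · right; right
        refine ⟨rfl, by omega, h2.2, h2.1, ?_⟩
        simp only [Dir.rot, cls, mv]
        rw [K_E ⟨hx, hx1, by omega, by omega, by omega, by omega⟩ (by omega)
          ⟨h2.1, h2.2, hr.1, hr.2, by omega⟩]
        congr 1
        omega
      · right; left
        refine ⟨?_, Or.inl ?_⟩
        · left
          simp only [mv]
          omega
        · simp only [Dir.rot, cls, mv]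
          exact K_n_R (by omega) (by omega) (by omega) (by omega) (by omega)
  | yp =>
    left
    have dz1 := (G.facts x y z).dz1
    have := G.cls_copy x y (z + 1) hx hx1 (by omega) (by omega) (by omega)
    simp only [Dir.rot, mv]
    rw [this]
    congr 1
    omega
  | ym =>
    have dz2 := (G.facts x y z).dz2
    by_cases h1 : 0 < z % G.b
    · left
      have := G.cls_copy x y (z - 1) hx hx1 (by omega) (by omega) (by omega)
      simp only [Dir.rot, mv]
      rw [this]
      congr 1
      omega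
    · right; left
      refine ⟨?_, ?_⟩
      · right; right; left
        simp only [mv]
        omega
      · by_cases h2 : 2 ≤ z / G.b - 1
        · right
          refine ⟨y, (z - 1) % G.b, x % G.c, ?_, ?_⟩
          · simp only [Dir.rot, mv]
            exact G.cls_copy x y (z - 1) hx hx1 (by omega) (by omega) (by omega)
          · right; right; right; left
            omega
        · left
          simp only [Dir.rot, cls, mv]
          exact K_n_copy (by omega) (by omega) (by omega) (by omega)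
  | zp =>
    left
    have mx1 := (G.facts x y z).mx1
    have x1' := (G.facts x y z).x1'
    have xx := (G.facts x y z).xx
    have := G.cls_copy (x + 1) y z (by omega) (by omega) (by omega) (by omega) hr
    simp only [Dir.rot, mv]
    rw [this]
    congr 1
    omega
  | zm =>
    have mx2 := (G.facts x y z).mx2
    have x0' := (G.facts x y z).x0'
    by_cases h1 : 0 < x % G.c
    · left
      have := G.cls_copy (x - 1) y z (by omega) (by omega) (by omega) (by omega) hr
      simp only [Dir.rot, mv]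
      rw [this]
      congr 1
      omega
    · right; left
      refine ⟨?_, ?_⟩
      · right; right; right; right; left
        simp only [mv]
        omega
      · by_cases h2 : G.x0 ≤ x - 1
        · right
          refine ⟨y, z % G.b, (x - 1) % G.c, ?_, ?_⟩
          · simp only [Dir.rot, mv]
            exact G.cls_copy (x - 1) y z (by omega) (by omega) (by omega) (by omega) hr
          · right; right; right; right; right
            omega
        · left
          exact K_n_range (by omega)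

end GP

end Helper63.Clust
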