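import Pool.Agent.Helper63.Clust.Tower
import Pool.Agent.Helper99.Clust.Haar

/-! Pointwise bound of the weights of the next pattern, expectations, the base pattern. -/

open Finset

namespace Helper63.Clust

open Dir

lemma GP.br_high (G : GP) (x y z i : ℤ) (d : Dir) (h : G.cls (x, y, z) = .br i d)
    (hy : G.τ ≤ y) : z = 0 ∧ (x % G.c < 2 ∨ G.c - 2 < x % G.c) := by
  have hb := G.hb
  have hc := G.hc
  have hτ := G.hτ
  have hτa := G.hτa
  have xx := (G.facts x y z).xx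
  simp only [GP.cls, K] at h
  by_cases hR : G.x0 ≤ x ∧ x ≤ G.x1 ∧ 0 ≤ y ∧ y < G.a ∧ 0 ≤ z ∧ z < G.c * G.b
  swap
  · rw [if_neg hR] at h; simp at h
  rw [if_pos hR] at h
  by_cases hy0 : y = 0
  · rw [if_pos hy0] at h
    split_ifs at h
  rw [if_neg hy0] at h
  by_cases hxx : x = G.x1
  · rw [if_pos hxx] at h; simp at h
  rw [if_neg hxx] at h
  by_cases hz0 : z = 0
  · rw [if_pos hz0] at h
    by_cases hA : 2 ≤ x % G.c ∧ x % G.c ≤ G.c - 2 ∧ 2 * (x % G.c) < y
    · rw [if_pos hA] at h; simp at h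
    · exact ⟨hz0, by omega⟩
  rw [if_neg hz0] at h
  rw [if_neg (by omega : ¬ y < G.τ)] at h
  split_ifs at h

section

variable {P : Pat} (S : Step P)

/-- the weight excess on the trunk -/
noncomputable def exc (x : ℤ) : ℝ :=
  (P.g 0 + 3) + (if S.x0 ≤ x ∧ x ≤ S.x0 + (Step.J P + P.h : ℕ) then
    ((Step.J P + P.h : ℕ) + 1 : ℝ) * (P.g 0 + 1) else 0)

lemma exc_nonneg (x : ℤ) : 0 ≤ exc S x := by
  unfold exc
  have h1 := P.sd.nonneg 0
  have h2 : 0 ≤ ((Step.J P + P.h : ℕ) + 1 : ℝ) * (P.g 0 + 1) := by positivity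
  split_ifs <;> linarith

lemma φ'_le (hs3 : S.δ * S.a' = 1) (hδ : (Step.J P : ℝ) * S.δ ≤ 1) (x y z : ℤ) :
    S.φ' (x, y, z) 0 ≤ P.φ (y, z % P.b, x % P.c) 0 + (if y < P.τ then P.g 0 + 1 else 0) +
      (if z = 0 ∧ (x % P.c < 2 ∨ P.c - 2 < x % P.c) then P.g 0 + 1 else 0) +
      (if y = 0 ∧ z = 0 then exc S x else 0) := by
  have hg := P.sd.nonneg 0
  have hD0 := D_zero S hδ
  have n1 : 0 ≤ P.φ (y, z % P.b, x % P.c) 0 := P.nonneg _ _
  have n2 : 0 ≤ (if y < P.τ then P.g 0 + 1 else 0) := by split_ifs <;> linarith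
  have n3 : 0 ≤ (if z = 0 ∧ (x % P.c < 2 ∨ P.c - 2 < x % P.c) then P.g 0 + 1 else 0) := by
    split_ifs <;> linarith
  have n4 : 0 ≤ (if y = 0 ∧ z = 0 then exc S x else 0) := by
    have := exc_nonneg S x
    split_ifs <;> linarith
  unfold Step.φ'
  cases h : S.G.cls (x, y, z) with
  | trunk m =>
    obtain ⟨hy, hz, hm, hm0, hm1, -⟩ := S.G.trunk_all x y z m h
    have e1 : S.G.x0 = S.x0 := rfl
    have e2 : S.G.x1 = S.x1 := rfl
    have hL := S.L_eq
    rw [if_pos (show y = 0 ∧ z = 0 from ⟨hy, hz⟩)]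
    suffices hh : S.f m.toNat 0 ≤ exc S x by
      change S.f m.toNat 0 ≤ _
      linarith
    unfold Step.f ff
    rw [if_pos (by omega)]
    unfold TT exc
    rw [Finset.range_zero, Finset.sum_empty, add_zero, add_zero]
    have h4 := Lδ S hs3
    have h5 := δ1 S hs3
    have h6 : ((S.L : ℝ) - (m.toNat : ℕ)) * S.δ ≤ S.L * S.δ := by
      apply mul_le_mul_of_nonneg_right _ S.hδ.le
      have : (0 : ℝ) ≤ ((m.toNat : ℕ) : ℝ) := by positivity
      linarith
    have h7 : ∑ i ∈ Ico m.toNat S.L, S.D i ≤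
        (if S.x0 ≤ x ∧ x ≤ S.x0 + (Step.J P + P.h : ℕ) then
    ((Step.J P + P.h : ℕ) + 1 : ℝ) * (P.g 0 + 1) else 0) := by
      split_ifs with hx
      · have h8 : ∑ i ∈ Ico m.toNat S.L, S.D i ≤ ∑ i ∈ range (Step.J P + P.h + 1), S.D i := by
          have h9 : ∑ i ∈ Ico m.toNat S.L, S.D i ≤ ∑ i ∈ range S.L, S.D i := by
            apply Finset.sum_le_sum_of_subset_of_nonneg
            · intro i hi
              rw [Finset.mem_Ico] at hi
              exact Finset.mem_range.mpr hi.2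
            · intro i _ _
              exact S.sdD.nonneg i
          refine h9.trans ?_
          have hHL := S.HL
          rw [← Finset.sum_range_add_sum_Ico (f := S.D) (show Step.J P + P.h + 1 ≤ S.L by omega)]
          have : ∑ i ∈ Ico (Step.J P + P.h + 1) S.L, S.D i = 0 := by
            apply Finset.sum_eq_zero
            intro i hi
            rw [Finset.mem_Ico] at hi
            exact S.sdD.zero i (by omega)
          rw [this, add_zero]
        refine h8.trans ?_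
        have h10 : ∑ i ∈ range (Step.J P + P.h + 1), S.D i ≤
            ∑ i ∈ range (Step.J P + P.h + 1), (P.g 0 + 1) := by
          apply Finset.sum_le_sum
          intro i _
          exact (S.sdD.antitone (Nat.zero_le i)).trans hD0
        simp only [Finset.sum_const, Finset.card_range, nsmul_eq_mul] at h10
        push_cast at h10 ⊢
        exact h10
      · apply le_of_eq
        apply Finset.sum_eq_zero
        intro i hi
        rw [Finset.mem_Ico] at hi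
        apply S.sdD.zero
        omega
    linarith
  | br i d =>
    change S.D (i.toNat + 0) ≤ _
    have hDi : S.D (i.toNat + 0) ≤ P.g 0 + 1 :=
      (S.sdD.antitone (Nat.zero_le _)).trans hD0
    by_cases hy : y < P.τ
    · rw [if_pos hy]
      linarith
    · have := S.G.br_high x y z i d h (by
        have e1 : S.G.τ = P.τ := rfl
        omega)
      rw [if_pos (show z = 0 ∧ (x % P.c < 2 ∨ P.c - 2 < x % P.c) from this)]
      linarith
  | copy o1 o2 o3 =>
    obtain ⟨h2, h3, h4, -⟩ := S.G.copy_all x y z o1 o2 o3 h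
    change P.φ (o1, o2, o3) 0 ≤ _
    have e4 : S.G.b = P.b := rfl
    have e5 : S.G.c = P.c := rfl
    rw [h2, h3, h4, e4, e5]
    linarith
  | none =>
    change (0 : ℝ) ≤ _
    linarith

end


section prob

open MeasureTheory Pool.Agent.Helper99.Clust
open scoped ENNReal

lemma res_mod (z : ℤ_[3]) {k k' : ℕ} (h : k' ≤ k) : res k z % 3 ^ k' = res k' z := by
  obtain ⟨h0, hh⟩ := exists_int z k
  have h1 := hh k le_rfl 0
  have h2 := hh k' h 0
  simp only [Int.cast_zero, add_zero] at h1 h2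
  rw [h1, h2, Int.emod_emod_of_dvd _ (pow_dvd_pow 3 h)]

lemma haar_res_finset (κ : ℕ) (A : Finset ℤ) :
    haar₁ {z | res κ z ∈ A} ≤ ENNReal.ofReal ((A.card : ℝ) / 3 ^ κ) := by
  have h1 : {z : ℤ_[3] | res κ z ∈ A} = ⋃ r ∈ A, {z | res κ z = r} := by
    ext z
    simp
  rw [h1]
  refine (measure_biUnion_finset_le A _).trans ?_
  have h2 : ∀ r ∈ A, haar₁ {z | res κ z = r} ≤ ENNReal.ofReal (1 / 3 ^ κ) := by
    intro r _
    by_cases hr : 0 ≤ r ∧ r < 3 ^ κ
    · rw [haar₁_res κ hr.1 hr.2, ENNReal.ofReal_div_of_pos (by positivity)]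
      simp [ENNReal.ofReal_pow]
    · have : {z : ℤ_[3] | res κ z = r} = ∅ := by
        ext z
        simp only [Set.mem_ofPred_eq, Set.mem_empty_iff_false, iff_false]
        rintro rfl
        exact hr ⟨res_nonneg κ z, res_lt κ z⟩
      rw [this, measure_empty]
      exact bot_le
  refine (Finset.sum_le_sum h2).trans ?_
  rw [Finset.sum_const, nsmul_eq_mul, ← ENNReal.ofReal_natCast, ← ENNReal.ofReal_mul (by positivity)]
  apply ENNReal.ofReal_le_ofReal
  rw [mul_one_div]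

lemma prob3 {i j l : Fin 3} (hij : i ≠ j) (hil : i ≠ l) (hjl : j ≠ l) (κ1 κ2 κ3 : ℕ)
    (A1 A2 A3 : Finset ℤ) :
    odo 3 {ξ | res κ1 (ξ i) ∈ A1 ∧ res κ2 (ξ j) ∈ A2 ∧ res κ3 (ξ l) ∈ A3} ≤
      ENNReal.ofReal ((A1.card : ℝ) / 3 ^ κ1 * ((A2.card : ℝ) / 3 ^ κ2) *
        ((A3.card : ℝ) / 3 ^ κ3)) := by
  have huniv : (Finset.univ : Finset (Fin 3)) = {i, j, l} := by
    symm
    rw [Finset.eq_univ_iff_forall]
    intro x
    simp only [Finset.mem_insert, Finset.mem_singleton]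
    omega
  have h1 : {ξ : Odo 3 | res κ1 (ξ i) ∈ A1 ∧ res κ2 (ξ j) ∈ A2 ∧ res κ3 (ξ l) ∈ A3} =
      Set.pi Set.univ fun b => {z | (b = i → res κ1 z ∈ A1) ∧ (b = j → res κ2 z ∈ A2) ∧
        (b = l → res κ3 z ∈ A3)} := by
    ext ξ
    simp only [Set.mem_ofPred_eq, Set.mem_pi, Set.mem_univ, forall_const]
    constructor
    · rintro ⟨h1, h2, h3⟩ b
      refine ⟨?_, ?_, ?_⟩
      · rintro rfl; exact h1
      · rintro rfl; exact h2
      · rintro rfl; exact h3
    · intro h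
      exact ⟨(h i).1 rfl, (h j).2.1 rfl, (h l).2.2 rfl⟩
  rw [h1, odo, Measure.pi_pi, huniv, Finset.prod_insert (by simp [hij, hil]),
    Finset.prod_insert (by simp [hjl]), Finset.prod_singleton, ← mul_assoc,
    ENNReal.ofReal_mul (by positivity), ENNReal.ofReal_mul (by positivity)]
  refine mul_le_mul' (mul_le_mul' ?_ ?_) ?_
  · refine le_trans (measure_mono ?_) (haar_res_finset κ1 A1)
    rintro z ⟨h, -, -⟩
    exact h rfl
  · refine le_trans (measure_mono ?_) (haar_res_finset κ2 A2)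
    rintro z ⟨-, h, -⟩
    exact h rfl
  · refine le_trans (measure_mono ?_) (haar_res_finset κ3 A3)
    rintro z ⟨-, -, h⟩
    exact h rfl

lemma res_zero (z : ℤ_[3]) : res 0 z = 0 := by
  have h1 := res_nonneg 0 z
  have h2 := res_lt 0 z
  simp only [pow_zero] at h2
  omega

/-- bound of the integral of an indicator-like function -/
lemma lint_ite (E : Odo 3 → Prop) [DecidablePred E] (hE : MeasurableSet {ξ | E ξ}) {c q : ℝ}
    (hc : 0 ≤ c) (hq : odo 3 {ξ | E ξ} ≤ ENNReal.ofReal q) :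
    ∫⁻ ξ, ENNReal.ofReal (if E ξ then c else 0) ∂odo 3 ≤ ENNReal.ofReal (c * q) := by
  have h1 : ∀ ξ, ENNReal.ofReal (if E ξ then c else 0) =
      Set.indicator {ξ | E ξ} (fun _ => ENNReal.ofReal c) ξ := by
    intro ξ
    by_cases h : E ξ
    · rw [if_pos h, Set.indicator_of_mem]
      exact h
    · rw [if_neg h, Set.indicator_of_notMem, ENNReal.ofReal_zero]
      exact h
  simp_rw [h1]
  rw [lintegral_indicator hE, setLIntegral_const, ENNReal.ofReal_mul hc]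
  gcongr


/-- the three residues that determine the position at level `k+1` -/
noncomputable def T3 (i j l : Fin 3) (κ1 κ2 κ3 : ℕ) (ξ : Odo 3) : ℤ × ℤ × ℤ :=
  (res κ1 (ξ i), res κ2 (ξ j), res κ3 (ξ l))

lemma measurable_T3 (i j l : Fin 3) (κ1 κ2 κ3 : ℕ) : Measurable (T3 i j l κ1 κ2 κ3) := by
  unfold T3
  exact ((measurable_res κ1).comp (measurable_pi_apply i)).prodMk
    (((measurable_res κ2).comp (measurable_pi_apply j)).prodMk
      ((measurable_res κ3).comp (measurable_pi_apply l)))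

lemma meas_T3 (i j l : Fin 3) (κ1 κ2 κ3 : ℕ) (E : ℤ × ℤ × ℤ → Prop) :
    MeasurableSet {ξ | E (T3 i j l κ1 κ2 κ3 ξ)} :=
  measurable_T3 i j l κ1 κ2 κ3 (Set.to_countable {p | E p}).measurableSet

lemma le_half_pow {k : ℕ} {x y : ℝ} (hy : 0 < y) (h : (2 : ℝ) ^ k * x ≤ y) :
    x / y ≤ (1 / 2) ^ k := by
  rw [div_le_iff₀ hy]
  have h3 : (1 / 2 : ℝ) ^ k * 2 ^ k = 1 := by
    rw [← mul_pow]; norm_num
  have h4 : (1 / 2 : ℝ) ^ k * ((2 : ℝ) ^ k * x) ≤ (1 / 2 : ℝ) ^ k * y :=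
    mul_le_mul_of_nonneg_left h (by positivity)
  rwa [← mul_assoc, h3, one_mul] at h4

lemma expect_step (k : ℕ) {P : Pat} (S : Step P) (hP : LInv k P) (hS : SInv k S)
    {α β γ α' : ℕ} (hα : P.a = 3 ^ α) (hβ : P.b = 3 ^ β) (hγ : P.c = 3 ^ γ)
    (hα' : S.a' = 3 ^ α') {i j l : Fin 3} (hij : i ≠ j) (hil : i ≠ l) (hjl : j ≠ l) :
    ∫⁻ ξ, ENNReal.ofReal (S.φ' (res α' (ξ i), res α (ξ j), res (γ + β) (ξ l)) 0) ∂odo 3 ≤
      ∫⁻ ξ, ENNReal.ofReal (P.φ (res α (ξ j), res β (ξ l), res γ (ξ i)) 0) ∂odo 3 +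
        ENNReal.ofReal (36 * (1 / 2) ^ k) := by
  classical
  have hs3 := hS.s3
  have hδ : (Step.J P : ℝ) * S.δ ≤ 1 := by
    rw [← hs3, mul_comm]
    exact mul_le_mul_of_nonneg_left hS.s4 S.hδ.le
  have hb := P.hb
  have hc := P.hc
  have hτ := P.hτ
  have hfit := P.fit
  have hΛ : 0 < P.c * (P.b + 1) := by positivity
  have ha0 : 0 < P.a := by omega
  have hg := P.sd.nonneg 0
  have hbR : (3 : ℝ) ≤ P.b := by exact_mod_cast hb
  have hcR : (5 : ℝ) ≤ P.c := by exact_mod_cast hc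
  have haR : (0 : ℝ) < P.a := by exact_mod_cast ha0
  have haR1 : (1 : ℝ) ≤ P.a := by exact_mod_cast ha0
  have ha'R := a'_pos S
  have eα : (3 : ℝ) ^ α = P.a := by rw [hα]; push_cast; rfl
  have eβ : (3 : ℝ) ^ β = P.b := by rw [hβ]; push_cast; rfl
  have eγ : (3 : ℝ) ^ γ = P.c := by rw [hγ]; push_cast; rfl
  have eα' : (3 : ℝ) ^ α' = S.a' := by rw [hα']; push_cast; rfl
  have eγβ : (3 : ℝ) ^ (γ + β) = P.c * P.b := by rw [pow_add, eγ, eβ]
  -- `c ≤ a'`
  have hγα' : γ ≤ α' := by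
    have h1 := S.fit'
    have h2 := S.hx0'
    have h3 := S.hL
    have h5 : 0 < P.c * P.b * (P.a + 1) := by positivity
    have h4 : P.c ≤ P.c * P.b := by nlinarith
    have h6 : (3 : ℤ) ^ γ < 3 ^ α' := by
      rw [← hγ, ← hα']
      omega
    exact ((pow_lt_pow_iff_right₀ (by norm_num : (1 : ℤ) < 3)).1 h6).le
  set T := T3 i j l α' α (γ + β) with hT
  have hTm : Measurable T := measurable_T3 _ _ _ _ _ _
  set own : ℤ × ℤ × ℤ → ℤ × ℤ × ℤ := fun p => (p.2.1, p.2.2 % P.b, p.1 % P.c) with hown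
  have hrew : ∀ ξ : Odo 3, P.φ (res α (ξ j), res β (ξ l), res γ (ξ i)) 0 = P.φ (own (T ξ)) 0 := by
    intro ξ
    simp only [hown, hT, T3]
    rw [hβ, hγ, res_mod (ξ l) (show β ≤ γ + β by omega), res_mod (ξ i) hγα']
  simp_rw [hrew]
  set H : ℕ := Step.J P + P.h with hH
  -- pointwise bound
  have hpt : ∀ ξ : Odo 3, ENNReal.ofReal (S.φ' (res α' (ξ i), res α (ξ j), res (γ + β) (ξ l)) 0) ≤
      ENNReal.ofReal (P.φ (own (T ξ)) 0) +
      (ENNReal.ofReal (if (T ξ).2.1 < P.τ then P.g 0 + 1 else 0) +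
      (ENNReal.ofReal (if (T ξ).2.2 = 0 ∧ ((T ξ).1 % P.c < 2 ∨ P.c - 2 < (T ξ).1 % P.c) then
          P.g 0 + 1 else 0) +
      (ENNReal.ofReal (if (T ξ).2.1 = 0 ∧ (T ξ).2.2 = 0 then P.g 0 + 3 else 0) +
      ENNReal.ofReal (if (T ξ).2.1 = 0 ∧ (T ξ).2.2 = 0 ∧ S.x0 ≤ (T ξ).1 ∧ (T ξ).1 ≤ S.x0 + H then
          ((H : ℝ) + 1) * (P.g 0 + 1) else 0)))) := by
    intro ξ
    have n2 : 0 ≤ (if (T ξ).2.1 < P.τ then P.g 0 + 1 else 0) := by split_ifs <;> linarith
    have n3 : 0 ≤ (if (T ξ).2.2 = 0 ∧ ((T ξ).1 % P.c < 2 ∨ P.c - 2 < (T ξ).1 % P.c) then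
          P.g 0 + 1 else 0) := by split_ifs <;> linarith
    have n4 : 0 ≤ (if (T ξ).2.1 = 0 ∧ (T ξ).2.2 = 0 then P.g 0 + 3 else 0) := by
      split_ifs <;> linarith
    have n6 : 0 ≤ ((H : ℝ) + 1) * (P.g 0 + 1) := by positivity
    have n5 : 0 ≤ (if (T ξ).2.1 = 0 ∧ (T ξ).2.2 = 0 ∧ S.x0 ≤ (T ξ).1 ∧ (T ξ).1 ≤ S.x0 + H then
          ((H : ℝ) + 1) * (P.g 0 + 1) else 0) := by
      split_ifs <;> linarith
    rw [← ENNReal.ofReal_add n4 n5, ← ENNReal.ofReal_add n3 (by positivity),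
      ← ENNReal.ofReal_add n2 (by positivity), ← ENNReal.ofReal_add (P.nonneg _ _) (by positivity)]
    apply ENNReal.ofReal_le_ofReal
    refine (φ'_le S hs3 hδ (T ξ).1 (T ξ).2.1 (T ξ).2.2).trans ?_
    have : (if (T ξ).2.1 = 0 ∧ (T ξ).2.2 = 0 then exc S (T ξ).1 else 0) =
        (if (T ξ).2.1 = 0 ∧ (T ξ).2.2 = 0 then P.g 0 + 3 else 0) +
        (if (T ξ).2.1 = 0 ∧ (T ξ).2.2 = 0 ∧ S.x0 ≤ (T ξ).1 ∧ (T ξ).1 ≤ S.x0 + H then
          ((H : ℝ) + 1) * (P.g 0 + 1) else 0) := by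
      unfold exc
      by_cases h1 : (T ξ).2.1 = 0 ∧ (T ξ).2.2 = 0
      · rw [if_pos h1, if_pos h1]
        by_cases h2 : S.x0 ≤ (T ξ).1 ∧ (T ξ).1 ≤ S.x0 + H
        · rw [if_pos h2, if_pos ⟨h1.1, h1.2, h2.1, h2.2⟩]
        · rw [if_neg h2, if_neg (by tauto)]
      · rw [if_neg h1, if_neg h1, if_neg (by tauto)]
        simp
    rw [this]
    simp only [hown]
    linarith
  refine (lintegral_mono hpt).trans ?_
  have m0 : Measurable fun ξ => ENNReal.ofReal (P.φ (own (T ξ)) 0) :=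
    (measurable_of_countable fun p => ENNReal.ofReal (P.φ (own p) 0)).comp hTm
  have m1 : Measurable fun ξ => ENNReal.ofReal (if (T ξ).2.1 < P.τ then P.g 0 + 1 else 0) :=
    (measurable_of_countable fun p : ℤ × ℤ × ℤ =>
      ENNReal.ofReal (if p.2.1 < P.τ then P.g 0 + 1 else 0)).comp hTm
  have m2 : Measurable fun ξ => ENNReal.ofReal (if (T ξ).2.2 = 0 ∧ ((T ξ).1 % P.c < 2 ∨
      P.c - 2 < (T ξ).1 % P.c) then P.g 0 + 1 else 0) :=
    (measurable_of_countable fun p : ℤ × ℤ × ℤ =>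
      ENNReal.ofReal (if p.2.2 = 0 ∧ (p.1 % P.c < 2 ∨
      P.c - 2 < p.1 % P.c) then P.g 0 + 1 else 0)).comp hTm
  have m3 : Measurable fun ξ => ENNReal.ofReal (if (T ξ).2.1 = 0 ∧ (T ξ).2.2 = 0 then
      P.g 0 + 3 else 0) :=
    (measurable_of_countable fun p : ℤ × ℤ × ℤ =>
      ENNReal.ofReal (if p.2.1 = 0 ∧ p.2.2 = 0 then P.g 0 + 3 else 0)).comp hTm
  rw [lintegral_add_left m0, lintegral_add_left m1, lintegral_add_left m2, lintegral_add_left m3]
  gcongr
  -- the four error terms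
  have hk0 : (0 : ℝ) ≤ (1 / 2) ^ k := by positivity
  have hJ1 : 1 ≤ Step.J P := J_pos
  have hJ1R : (1 : ℝ) ≤ Step.J P := by exact_mod_cast hJ1
  have hi1 := hP.i1
  have q1 : ∫⁻ ξ, ENNReal.ofReal (if (T ξ).2.1 < P.τ then P.g 0 + 1 else 0) ∂odo 3 ≤
      ENNReal.ofReal ((1 / 2) ^ k) := by
    refine (lint_ite (fun ξ => (T ξ).2.1 < P.τ) (meas_T3 i j l α' α (γ + β) fun p => p.2.1 < P.τ)
      (q := (P.τ : ℝ) / P.a) (by linarith) ?_).trans ?_
    · have h1 := prob3 hij hil hjl 0 α 0 {0} (Finset.Ico 0 P.τ) {0}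
      refine (measure_mono ?_).trans (h1.trans ?_)
      · intro ξ hξ
        have hξ' : res α (ξ j) < P.τ := hξ
        refine ⟨?_, ?_, ?_⟩
        · rw [res_zero]; simp
        · rw [Finset.mem_Ico]; exact ⟨res_nonneg _ _, hξ'⟩
        · rw [res_zero]; simp
      · apply ENNReal.ofReal_le_ofReal
        rw [eα]
        simp only [Finset.card_singleton, Int.card_Ico, sub_zero, Nat.cast_one, pow_zero, div_one,
          one_mul, mul_one]
        have : ((P.τ.toNat : ℕ) : ℝ) = P.τ := by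
          have h2 : ((P.τ.toNat : ℕ) : ℤ) = P.τ := Int.toNat_of_nonneg (by omega)
          exact_mod_cast h2
        rw [this]
    · apply ENNReal.ofReal_le_ofReal
      rw [← mul_div_assoc]
      apply le_half_pow haR
      refine le_trans ?_ hi1
      apply mul_le_mul_of_nonneg_left _ (by positivity)
      have h2 : (P.τ : ℝ) ≤ Step.J P + 1 := by
        have h3 := Step.J_eq P
        have h4 : P.τ ≤ (Step.J P : ℤ) + 1 := by omega
        exact_mod_cast h4
      have h5 : (P.g 0 + 1) * (P.τ : ℝ) ≤ (P.g 0 + 1) * (Step.J P + 1) :=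
        mul_le_mul_of_nonneg_left h2 (by linarith)
      linarith
  have q2 : ∫⁻ ξ, ENNReal.ofReal (if (T ξ).2.2 = 0 ∧ ((T ξ).1 % P.c < 2 ∨
      P.c - 2 < (T ξ).1 % P.c) then P.g 0 + 1 else 0) ∂odo 3 ≤
      ENNReal.ofReal (33 * (1 / 2) ^ k) := by
    refine (lint_ite (fun ξ => (T ξ).2.2 = 0 ∧ ((T ξ).1 % P.c < 2 ∨
      P.c - 2 < (T ξ).1 % P.c)) (meas_T3 i j l α' α (γ + β) fun p => p.2.2 = 0 ∧ (p.1 % P.c < 2 ∨
      P.c - 2 < p.1 % P.c))
      (q := 3 / (P.c * (P.c * P.b))) (by linarith) ?_).trans ?_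
    · have h1 := prob3 hij hil hjl γ 0 (γ + β) {0, 1, P.c - 1} {0} {0}
      refine (measure_mono ?_).trans (h1.trans ?_)
      · intro ξ hξ
        have hξ' : res (γ + β) (ξ l) = 0 ∧ (res α' (ξ i) % P.c < 2 ∨
          P.c - 2 < res α' (ξ i) % P.c) := hξ
        rw [hγ, res_mod (ξ i) hγα'] at hξ'
        have h2 := res_nonneg γ (ξ i)
        have h3 := res_lt γ (ξ i)
        refine ⟨?_, ?_, ?_⟩
        · simp only [Finset.mem_insert, Finset.mem_singleton]
          rw [hγ]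
          omega
        · rw [res_zero]; simp
        · rw [hξ'.1]; simp
      · apply ENNReal.ofReal_le_ofReal
        rw [eγ, eγβ]
        have h5 : ((({0, 1, P.c - 1} : Finset ℤ).card : ℕ) : ℝ) ≤ 3 := by
          exact_mod_cast Finset.card_le_three
        have h6 : (0 : ℝ) < P.c := by linarith
        have h7 : (0 : ℝ) < P.b := by linarith
        simp only [Finset.card_singleton, Nat.cast_one, pow_zero, div_one, mul_one]
        rw [div_mul_div_comm, mul_one]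
        exact div_le_div_of_nonneg_right h5 (by positivity)
    · apply ENNReal.ofReal_le_ofReal
      have hi4 := hP.i4
      have hi5 := hP.i5
      have h6 : (0 : ℝ) < P.c := by linarith
      have h7 : (0 : ℝ) < P.b := by linarith
      have h8 : (P.g 0 + 1) * (3 / (P.c * (P.c * P.b))) ≤ 33 * (1 / P.c) := by
        rw [mul_div_assoc', mul_one_div, div_le_div_iff₀ (by positivity) h6]
        have h9 : (P.g 0 + 1) ≤ 11 * (P.b * P.c) := by
          have : (1 : ℝ) ≤ P.b * P.c := by nlinarith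
          linarith
        have h10 : (P.g 0 + 1) * 3 * P.c ≤ 11 * (P.b * P.c) * 3 * P.c := by
          apply mul_le_mul_of_nonneg_right _ h6.le
          linarith
        calc (P.g 0 + 1) * 3 * P.c ≤ 11 * (P.b * P.c) * 3 * P.c := h10
          _ = 33 * (P.c * (P.c * P.b)) := by ring
      refine h8.trans ?_
      have h11 : (1 : ℝ) / P.c ≤ (1 / 2) ^ k := le_half_pow h6 (by linarith)
      linarith
  have q3 : ∫⁻ ξ, ENNReal.ofReal (if (T ξ).2.1 = 0 ∧ (T ξ).2.2 = 0 then P.g 0 + 3 else 0) ∂odo 3 ≤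
      ENNReal.ofReal ((1 / 2) ^ k) := by
    refine (lint_ite (fun ξ => (T ξ).2.1 = 0 ∧ (T ξ).2.2 = 0)
      (meas_T3 i j l α' α (γ + β) fun p => p.2.1 = 0 ∧ p.2.2 = 0)
      (q := 1 / P.a) (by linarith) ?_).trans ?_
    · have h1 := prob3 hij hil hjl 0 α 0 {0} {0} {0}
      refine (measure_mono ?_).trans (h1.trans ?_)
      · intro ξ hξ
        have hξ' : res α (ξ j) = 0 ∧ res (γ + β) (ξ l) = 0 := hξ
        refine ⟨?_, ?_, ?_⟩
        · rw [res_zero]; simp
        · rw [hξ'.1]; simp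
        · rw [res_zero]; simp
      · apply ENNReal.ofReal_le_ofReal
        rw [eα]
        simp
    · apply ENNReal.ofReal_le_ofReal
      rw [mul_one_div]
      apply le_half_pow haR
      refine le_trans ?_ hi1
      apply mul_le_mul_of_nonneg_left _ (by positivity)
      nlinarith
  have q4 : ∫⁻ ξ, ENNReal.ofReal (if (T ξ).2.1 = 0 ∧ (T ξ).2.2 = 0 ∧ S.x0 ≤ (T ξ).1 ∧
      (T ξ).1 ≤ S.x0 + H then ((H : ℝ) + 1) * (P.g 0 + 1) else 0) ∂odo 3 ≤
      ENNReal.ofReal ((1 / 2) ^ k) := by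
    refine (lint_ite (fun ξ => (T ξ).2.1 = 0 ∧ (T ξ).2.2 = 0 ∧ S.x0 ≤ (T ξ).1 ∧
      (T ξ).1 ≤ S.x0 + H)
      (meas_T3 i j l α' α (γ + β) fun p => p.2.1 = 0 ∧ p.2.2 = 0 ∧ S.x0 ≤ p.1 ∧ p.1 ≤ S.x0 + H)
      (q := ((H : ℝ) + 1) / S.a') (by positivity) ?_).trans ?_
    · have h1 := prob3 hij hil hjl α' 0 0 (Finset.Icc S.x0 (S.x0 + H)) {0} {0}
      refine (measure_mono ?_).trans (h1.trans ?_)
      · intro ξ hξ
        have hξ' : res α (ξ j) = 0 ∧ res (γ + β) (ξ l) = 0 ∧ S.x0 ≤ res α' (ξ i) ∧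
          res α' (ξ i) ≤ S.x0 + H := hξ
        refine ⟨?_, ?_, ?_⟩
        · rw [Finset.mem_Icc]; exact hξ'.2.2
        · rw [res_zero]; simp
        · rw [res_zero]; simp
      · apply ENNReal.ofReal_le_ofReal
        rw [eα']
        simp only [Finset.card_singleton, Int.card_Icc, Nat.cast_one, pow_zero, div_one, mul_one]
        have h2 : ((S.x0 + H + 1 - S.x0).toNat : ℝ) = (H : ℝ) + 1 := by
          have h3 : (S.x0 + H + 1 - S.x0).toNat = H + 1 := by omega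
          rw [h3]; push_cast; rfl
        rw [h2]
    · apply ENNReal.ofReal_le_ofReal
      rw [← mul_div_assoc]
      apply le_half_pow ha'R
      have h1 := hS.s2
      have h2 : ((H : ℝ) + 1) * (P.g 0 + 1) * ((H : ℝ) + 1) =
          (((Step.J P + P.h : ℕ) : ℝ) + 1) ^ 2 * (P.g 0 + 1) := by rw [hH]; ring
      rw [h2]
      exact h1
  refine (add_le_add q1 (add_le_add q2 (add_le_add q3 q4))).trans ?_
  rw [← ENNReal.ofReal_add hk0 hk0, ← ENNReal.ofReal_add (by positivity) (by positivity),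
    ← ENNReal.ofReal_add hk0 (by positivity)]
  apply ENNReal.ofReal_le_ofReal
  linarith


lemma bad_prob (k : ℕ) {P : Pat} (S : Step P) (hP : LInv k P) (hS : SInv k S)
    {α β γ α' : ℕ} (hα : P.a = 3 ^ α) (hβ : P.b = 3 ^ β) (hγ : P.c = 3 ^ γ)
    (hα' : S.a' = 3 ^ α') {i j l : Fin 3} (hij : i ≠ j) (hil : i ≠ l) (hjl : j ≠ l) :
    odo 3 {ξ | ¬ (S.x0 ≤ res α' (ξ i) ∧ res α' (ξ i) < S.x1 ∧ P.τ ≤ res α (ξ j) ∧
      res α (ξ j) ≤ P.a - 2 ∧ 2 ≤ res (γ + β) (ξ l) / P.b ∧ res (γ + β) (ξ l) / P.b ≤ P.c - 2 ∧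
      1 ≤ res (γ + β) (ξ l) % P.b ∧ res (γ + β) (ξ l) % P.b ≤ P.b - 2 ∧
      1 ≤ res α' (ξ i) % P.c ∧ res α' (ξ i) % P.c ≤ P.c - 2)} ≤
      ENNReal.ofReal (11 * (1 / 2) ^ k) := by
  classical
  have hb := P.hb
  have hc := P.hc
  have hτ := P.hτ
  have hfit := P.fit
  have hfit' := S.fit'
  have hx0' := S.hx0'
  have hL := S.hL
  have hΛ : 0 < P.c * (P.b + 1) := by positivity
  have hcb : 0 < P.c * P.b := by positivity
  have ha0 : 0 < P.a := by omega
  have hcba : 0 < P.c * P.b * (P.a + 1) := by positivity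
  have hg := P.sd.nonneg 0
  have hbR : (3 : ℝ) ≤ P.b := by exact_mod_cast hb
  have hcR : (5 : ℝ) ≤ P.c := by exact_mod_cast hc
  have haR : (0 : ℝ) < P.a := by exact_mod_cast ha0
  have ha'R := a'_pos S
  have eα : (3 : ℝ) ^ α = P.a := by rw [hα]; push_cast; rfl
  have eβ : (3 : ℝ) ^ β = P.b := by rw [hβ]; push_cast; rfl
  have eγ : (3 : ℝ) ^ γ = P.c := by rw [hγ]; push_cast; rfl
  have eα' : (3 : ℝ) ^ α' = S.a' := by rw [hα']; push_cast; rfl
  have eγβ : (3 : ℝ) ^ (γ + β) = P.c * P.b := by rw [pow_add, eγ, eβ]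
  have eγβZ : (3 : ℤ) ^ (γ + β) = P.c * P.b := by rw [pow_add, ← hγ, ← hβ]
  have hγα' : γ ≤ α' := by
    have h4 : P.c ≤ P.c * P.b := by nlinarith
    have h6 : (3 : ℤ) ^ γ < 3 ^ α' := by
      rw [← hγ, ← hα']
      omega
    exact ((pow_lt_pow_iff_right₀ (by norm_num : (1 : ℤ) < 3)).1 h6).le
  have hk0 : (0 : ℝ) ≤ (1 / 2) ^ k := by positivity
  set A1 : Finset ℤ := Finset.Ico 0 S.x0 ∪ Finset.Ico S.x1 S.a' with hA1
  set A2 : Finset ℤ := Finset.Ico 0 P.τ ∪ {P.a - 1} with hA2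
  set A3 : Finset ℤ := Finset.Ico 0 (2 * P.b) ∪ Finset.Ico ((P.c - 1) * P.b) (P.c * P.b) with hA3
  set A4 : Finset ℤ := {0, P.b - 1} with hA4
  set A5 : Finset ℤ := {0, P.c - 1} with hA5
  have z0 : ∀ z : ℤ_[3], res 0 z ∈ ({0} : Finset ℤ) := by
    intro z; rw [res_zero]; simp
  have hsub : {ξ : Odo 3 | ¬ (S.x0 ≤ res α' (ξ i) ∧ res α' (ξ i) < S.x1 ∧ P.τ ≤ res α (ξ j) ∧
      res α (ξ j) ≤ P.a - 2 ∧ 2 ≤ res (γ + β) (ξ l) / P.b ∧ res (γ + β) (ξ l) / P.b ≤ P.c - 2 ∧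
      1 ≤ res (γ + β) (ξ l) % P.b ∧ res (γ + β) (ξ l) % P.b ≤ P.b - 2 ∧
      1 ≤ res α' (ξ i) % P.c ∧ res α' (ξ i) % P.c ≤ P.c - 2)} ⊆
      {ξ | res α' (ξ i) ∈ A1 ∧ res 0 (ξ j) ∈ ({0} : Finset ℤ) ∧ res 0 (ξ l) ∈ ({0} : Finset ℤ)} ∪
      ({ξ | res 0 (ξ i) ∈ ({0} : Finset ℤ) ∧ res α (ξ j) ∈ A2 ∧ res 0 (ξ l) ∈ ({0} : Finset ℤ)} ∪
      ({ξ | res 0 (ξ i) ∈ ({0} : Finset ℤ) ∧ res 0 (ξ j) ∈ ({0} : Finset ℤ) ∧
        res (γ + β) (ξ l) ∈ A3} ∪
      ({ξ | res 0 (ξ i) ∈ ({0} : Finset ℤ) ∧ res 0 (ξ j) ∈ ({0} : Finset ℤ) ∧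
        res β (ξ l) ∈ A4} ∪
      {ξ | res γ (ξ i) ∈ A5 ∧ res 0 (ξ j) ∈ ({0} : Finset ℤ) ∧
        res 0 (ξ l) ∈ ({0} : Finset ℤ)}))) := by
    intro ξ hξ
    by_contra hcon
    simp only [Set.mem_union, Set.mem_ofPred_eq, z0, and_true, true_and, not_or] at hcon
    obtain ⟨c1, c2, c3, c4, c5⟩ := hcon
    apply hξ
    rw [hA1, Finset.mem_union, Finset.mem_Ico, Finset.mem_Ico] at c1
    rw [hA2, Finset.mem_union, Finset.mem_Ico, Finset.mem_singleton] at c2
    rw [hA3, Finset.mem_union, Finset.mem_Ico, Finset.mem_Ico] at c3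
    rw [hA4, Finset.mem_insert, Finset.mem_singleton] at c4
    rw [hA5, Finset.mem_insert, Finset.mem_singleton] at c5
    have r1 := res_nonneg α' (ξ i)
    have r1' := res_lt α' (ξ i)
    have r2 := res_nonneg α (ξ j)
    have r2' := res_lt α (ξ j)
    have r3 := res_nonneg (γ + β) (ξ l)
    have r3' := res_lt (γ + β) (ξ l)
    have r4 := res_nonneg β (ξ l)
    have r4' := res_lt β (ξ l)
    have r5 := res_nonneg γ (ξ i)
    have r5' := res_lt γ (ξ i)
    rw [← hα'] at r1'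
    rw [← hα] at r2'
    rw [eγβZ] at r3'
    rw [← hβ] at r4'
    rw [← hγ] at r5'
    have m4 : res (γ + β) (ξ l) % P.b = res β (ξ l) := by
      rw [hβ]; exact res_mod (ξ l) (by omega)
    have m5 : res α' (ξ i) % P.c = res γ (ξ i) := by
      rw [hγ]; exact res_mod (ξ i) hγα'
    rw [m4, m5]
    have hbpos : 0 < P.b := by omega
    have d1 : 2 ≤ res (γ + β) (ξ l) / P.b := by
      rw [Int.le_ediv_iff_mul_le hbpos]
      omega
    have d2 : res (γ + β) (ξ l) / P.b < P.c - 1 := by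
      rw [Int.ediv_lt_iff_lt_mul hbpos]
      omega
    omega
  refine (measure_mono hsub).trans ?_
  refine (measure_union_le _ _).trans ?_
  have hle : ∀ {a b c d : ℝ≥0∞}, a ≤ b → c ≤ d → a + c ≤ b + d := fun h1 h2 => add_le_add h1 h2
  have q1 : odo 3 {ξ | res α' (ξ i) ∈ A1 ∧ res 0 (ξ j) ∈ ({0} : Finset ℤ) ∧
      res 0 (ξ l) ∈ ({0} : Finset ℤ)} ≤ ENNReal.ofReal ((1 / 2) ^ k) := by
    refine (prob3 hij hil hjl α' 0 0 A1 {0} {0}).trans ?_
    apply ENNReal.ofReal_le_ofReal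
    simp only [Finset.card_singleton, Nat.cast_one, pow_zero, div_one, mul_one]
    rw [eα']
    apply le_half_pow ha'R
    refine le_trans ?_ hS.s1
    apply mul_le_mul_of_nonneg_left _ (by positivity)
    have h1 : (A1.card : ℤ) ≤ S.x0 + (S.a' - S.x1) := by
      have h2 := Finset.card_union_le (Finset.Ico 0 S.x0) (Finset.Ico S.x1 S.a')
      rw [← hA1] at h2
      simp only [Int.card_Ico, sub_zero] at h2
      omega
    have h3 : ((A1.card : ℤ) : ℝ) ≤ ((S.x0 + (S.a' - S.x1) : ℤ) : ℝ) := by exact_mod_cast h1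
    push_cast at h3
    linarith
  have q2 : odo 3 {ξ | res 0 (ξ i) ∈ ({0} : Finset ℤ) ∧ res α (ξ j) ∈ A2 ∧
      res 0 (ξ l) ∈ ({0} : Finset ℤ)} ≤ ENNReal.ofReal ((1 / 2) ^ k) := by
    refine (prob3 hij hil hjl 0 α 0 {0} A2 {0}).trans ?_
    apply ENNReal.ofReal_le_ofReal
    simp only [Finset.card_singleton, Nat.cast_one, pow_zero, div_one, mul_one, one_mul]
    rw [eα]
    apply le_half_pow haR
    refine le_trans ?_ hP.i1
    apply mul_le_mul_of_nonneg_left _ (by positivity)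
    have h1 : (A2.card : ℤ) ≤ P.τ + 1 := by
      have h2 := Finset.card_union_le (Finset.Ico 0 P.τ) {P.a - 1}
      rw [← hA2] at h2
      simp only [Int.card_Ico, sub_zero, Finset.card_singleton] at h2
      omega
    have h3 : ((A2.card : ℤ) : ℝ) ≤ ((P.τ + 1 : ℤ) : ℝ) := by exact_mod_cast h1
    push_cast at h3
    have h4 : (P.τ : ℝ) ≤ Step.J P + 1 := by
      have h5 := Step.J_eq P
      have h6 : P.τ ≤ (Step.J P : ℤ) + 1 := by omega
      exact_mod_cast h6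
    have h7 : (0 : ℝ) ≤ Step.J P := by positivity
    nlinarith
  have q3 : odo 3 {ξ | res 0 (ξ i) ∈ ({0} : Finset ℤ) ∧ res 0 (ξ j) ∈ ({0} : Finset ℤ) ∧
        res (γ + β) (ξ l) ∈ A3} ≤ ENNReal.ofReal (3 * (1 / 2) ^ k) := by
    refine (prob3 hij hil hjl 0 0 (γ + β) {0} {0} A3).trans ?_
    apply ENNReal.ofReal_le_ofReal
    simp only [Finset.card_singleton, Nat.cast_one, pow_zero, div_one, one_mul]
    rw [eγβ]
    have h1 : (A3.card : ℤ) ≤ 3 * P.b := by
      have h2 := Finset.card_union_le (Finset.Ico 0 (2 * P.b))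
        (Finset.Ico ((P.c - 1) * P.b) (P.c * P.b))
      rw [← hA3] at h2
      simp only [Int.card_Ico, sub_zero] at h2
      have h3 : P.c * P.b - (P.c - 1) * P.b = P.b := by ring
      rw [h3] at h2
      omega
    have h3 : ((A3.card : ℤ) : ℝ) ≤ ((3 * P.b : ℤ) : ℝ) := by exact_mod_cast h1
    push_cast at h3
    have hcpos : (0 : ℝ) < P.c := by linarith
    have hbpos : (0 : ℝ) < P.b := by linarith
    have h4 : (1 : ℝ) / P.c ≤ (1 / 2) ^ k := le_half_pow hcpos (by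
      have := hP.i5
      linarith)
    have h5 : (A3.card : ℝ) / (P.c * P.b) ≤ 3 * (1 / P.c) := by
      rw [mul_one_div, div_le_div_iff₀ (by positivity) hcpos]
      have : (A3.card : ℝ) * P.c ≤ 3 * P.b * P.c := mul_le_mul_of_nonneg_right h3 hcpos.le
      linarith
    linarith
  have q4 : odo 3 {ξ | res 0 (ξ i) ∈ ({0} : Finset ℤ) ∧ res 0 (ξ j) ∈ ({0} : Finset ℤ) ∧
        res β (ξ l) ∈ A4} ≤ ENNReal.ofReal (4 * (1 / 2) ^ k) := by
    refine (prob3 hij hil hjl 0 0 β {0} {0} A4).trans ?_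
    apply ENNReal.ofReal_le_ofReal
    simp only [Finset.card_singleton, Nat.cast_one, pow_zero, div_one, one_mul]
    rw [eβ]
    have h1 : (A4.card : ℝ) ≤ 2 := by
      exact_mod_cast Finset.card_le_two
    have hbpos : (0 : ℝ) < P.b := by linarith
    have h4 : (1 / 2 : ℝ) / P.b ≤ (1 / 2) ^ k := le_half_pow hbpos (by
      have := hP.i6
      linarith)
    have h5 : (A4.card : ℝ) / P.b ≤ 4 * ((1 / 2) / P.b) := by
      rw [← mul_div_assoc]
      apply div_le_div_of_nonneg_right _ hbpos.le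
      linarith
    linarith
  have q5 : odo 3 {ξ | res γ (ξ i) ∈ A5 ∧ res 0 (ξ j) ∈ ({0} : Finset ℤ) ∧
        res 0 (ξ l) ∈ ({0} : Finset ℤ)} ≤ ENNReal.ofReal (2 * (1 / 2) ^ k) := by
    refine (prob3 hij hil hjl γ 0 0 A5 {0} {0}).trans ?_
    apply ENNReal.ofReal_le_ofReal
    simp only [Finset.card_singleton, Nat.cast_one, pow_zero, div_one, mul_one]
    rw [eγ]
    have h1 : (A5.card : ℝ) ≤ 2 := by
      exact_mod_cast Finset.card_le_two
    have hcpos : (0 : ℝ) < P.c := by linarith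
    have h4 : (1 : ℝ) / P.c ≤ (1 / 2) ^ k := le_half_pow hcpos (by
      have := hP.i5
      linarith)
    have h5 : (A5.card : ℝ) / P.c ≤ 2 * (1 / P.c) := by
      rw [mul_one_div]
      apply div_le_div_of_nonneg_right _ hcpos.le
      linarith
    linarith
  refine (hle q1 ((measure_union_le _ _).trans (hle q2 ((measure_union_le _ _).trans (hle q3
    ((measure_union_le _ _).trans (hle q4 q5))))))).trans ?_
  rw [← ENNReal.ofReal_add (by positivity) (by positivity),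
    ← ENNReal.ofReal_add (by positivity) (by positivity),
    ← ENNReal.ofReal_add (by positivity) (by positivity),
    ← ENNReal.ofReal_add (by positivity) (by positivity)]
  apply ENNReal.ofReal_le_ofReal
  linarith

end prob

/-- The first pattern: a single vertex. -/
noncomputable def base : Pat where
  a := 243
  b := 3
  c := 9
  τ := 20
  h := 0
  g := fun n => if n = 0 then 1 else 0
  φ := fun v n => if v = (20, 0, 0) ∧ n = 0 then 1 else 0
  dir := fun _ => .xm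
  hb := by norm_num
  hc := by norm_num
  oa := by norm_num
  ob := by norm_num
  oc := by norm_num
  hτ := by norm_num
  fit := by norm_num
  sd := by
    refine ⟨?_, ?_, ?_⟩
    · intro n hn
      have : n = 0 := by omega
      simp [this]
    · intro n hn
      have : n = 0 := by omega
      simp [this]
    · intro n hn
      have : n ≠ 0 := by omega
      simp [this]
  nonneg := by
    intro v n
    split_ifs <;> norm_num
  pos0 := by
    intro v n h
    split_ifs at h with h1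
    · rw [if_pos ⟨h1.1, rfl⟩]; norm_num
    · exact absurd h (lt_irrefl _)
  supp := by
    intro x y z n h
    split_ifs at h with h1
    · have h2 := h1.1
      simp only [Prod.mk.injEq] at h2
      omega
    · exact absurd h (lt_irrefl _)
  fin := by
    intro v n hn
    rw [if_neg]
    omega
  root := by
    intro n
    simp
  rdir := rfl
  P1 := by
    intro v hv n h
    rw [if_neg (fun h1 => hv h1.1)] at h
    exact absurd h (lt_irrefl _)
  P3 := by
    intro v hv n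
    by_cases h1 : v = (20, 0, 0)
    · rw [if_neg (by omega)]
      unfold csum
      symm
      apply Finset.sum_eq_zero
      intro e _
      have h4 : e.mv v ≠ (20, 0, 0) := by
        rw [h1]
        cases e <;> simp [Dir.mv]
      beta_reduce
      rw [if_neg (fun h5 : e.mv v = (20, 0, 0) ∧ n = 0 => h4 h5.1)]
      simp
    · rw [if_neg (fun h5 : v = (20, 0, 0) ∧ 0 = 0 => h1 h5.1)] at hv
      exact absurd hv (lt_irrefl _)
  P4 := by
    intro e n
    split_ifs with h1 h2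
    · exact le_rfl
    · exact absurd h1.2 h2
    · norm_num
    · exact le_rfl

lemma base_inv : LInv 0 base := by
  have hJ : (Step.J base : ℝ) = 55 := by
    have : Step.J base = 55 := by
      unfold Step.J
      change ((20 : ℤ) + 9 * (3 + 1) - 1).toNat = 55
      norm_num
      rfl
    rw [this]; norm_num
  have hg : base.g 0 = 1 := rfl
  refine ⟨?_, ?_, ?_, ?_, ?_, ?_⟩
  · rw [hJ, hg]
    change (2 : ℝ) ^ 0 * ((55 + 1) * (1 + 1) + 2) ≤ ((243 : ℤ) : ℝ)
    norm_num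
  · have : Gs base = 1 := by
      unfold Gs
      change ∑ n ∈ range 1, base.g n = 1
      simp [hg]
    rw [this]
    change (1 : ℝ) ≤ (5 - 4 * (1 / 2) ^ 0) * (((243 : ℤ) : ℝ) * ((3 : ℤ) : ℝ) * ((9 : ℤ) : ℝ))
    norm_num
  · rw [hg]
    change (1 : ℝ) ≤ 10 * (((3 : ℤ) : ℝ) * ((9 : ℤ) : ℝ))
    norm_num
  · change (2 : ℝ) ^ 0 ≤ ((9 : ℤ) : ℝ)
    norm_num
  · change (2 : ℝ) ^ 0 ≤ 2 * ((3 : ℤ) : ℝ)
    norm_num
  · refine ⟨5, 1, 2, ?_, ?_, ?_⟩
    · change (243 : ℤ) = 3 ^ 5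
      norm_num
    · change (3 : ℤ) = 3 ^ 1
      norm_num
    · change (9 : ℤ) = 3 ^ 2
      norm_num

/-- the sequence of patterns -/
noncomputable def lv : (k : ℕ) → {P : Pat // LInv k P}
  | 0 => ⟨base, base_inv⟩
  | k + 1 => ⟨(exists_step k (lv k).1 (lv k).2).choose.next,
      (exists_step k (lv k).1 (lv k).2).choose_spec.2⟩

/-- the steps -/
noncomputable def stp (k : ℕ) : Step (lv k).1 := (exists_step k (lv k).1 (lv k).2).choose

lemma stp_inv (k : ℕ) : SInv k (stp k) := (exists_step k (lv k).1 (lv k).2).choose_spec.1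

lemma lv_succ (k : ℕ) : (lv (k + 1)).1 = (stp k).next := rfl

end Helper63.Clust
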