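import Pool.Agent.Helper63.Clust.Geo

/-! Finite patterns and the recursive step. -/

open Finset

namespace Helper63.Clust

open Dir

lemma sum_dir (F : Dir → ℝ) :
    ∑ e : Dir, F e = F .xp + F .xm + F .yp + F .ym + F .zp + F .zm := by
  have : (Finset.univ : Finset Dir) = {.xp, .xm, .yp, .ym, .zp, .zm} := by decide
  rw [this]
  rw [Finset.sum_insert (by decide), Finset.sum_insert (by decide), Finset.sum_insert (by decide),
    Finset.sum_insert (by decide), Finset.sum_insert (by decide), Finset.sum_singleton]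
  ring

/-- inverse rotation of directions -/
def Dir.rotInv : Dir → Dir
  | xp => zp | xm => zm | yp => xp | ym => xm | zp => yp | zm => ym

/-- rotation as an equivalence -/
def rotE : Dir ≃ Dir where
  toFun := Dir.rot
  invFun := Dir.rotInv
  left_inv := by intro e; cases e <;> rfl
  right_inv := by intro e; cases e <;> rfl

lemma rot_neg (e : Dir) : e.rot.neg = e.neg.rot := by cases e <;> rfl

lemma rot_inj {e f : Dir} : e.rot = f.rot ↔ e = f := rotE.injective.eq_iff

/-- sum over the children of `v` of the generation `n` masses -/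
def csum (φ : V → ℕ → ℝ) (dir : V → Dir) (v : V) (n : ℕ) : ℝ :=
  ∑ e : Dir, if dir (e.mv v) = e.neg then φ (e.mv v) n else 0

/-- A finite pattern: a tree embedded in a box, `φ v n` is the mass of the `n`-th generation
below `v`. -/
structure Pat where
  (a b c τ : ℤ)
  h : ℕ
  g : ℕ → ℝ
  φ : V → ℕ → ℝ
  dir : V → Dir
  hb : 3 ≤ b
  hc : 5 ≤ c
  oa : a % 2 = 1
  ob : b % 2 = 1
  oc : c % 2 = 1
  hτ : 2 * c + 2 ≤ τ
  fit : h + τ + c * (b + 1) ≤ a - 2
  sd : SDec g h
  nonneg : ∀ v n, 0 ≤ φ v n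
  pos0 : ∀ v n, 0 < φ v n → 0 < φ v 0
  supp : ∀ x y z n, 0 < φ (x, y, z) n →
    τ ≤ x ∧ x ≤ a - 2 ∧ 0 ≤ y ∧ y ≤ b - 2 ∧ 0 ≤ z ∧ z ≤ c - 2
  fin : ∀ v n, h < n → φ v n = 0
  root : ∀ n, φ (τ, 0, 0) n = g n
  rdir : dir (τ, 0, 0) = .xm
  P1 : ∀ v, v ≠ (τ, 0, 0) → ∀ n, 0 < φ v n → φ v n < φ ((dir v).mv v) n ∧
    ∀ e : Dir, e ≠ dir v → φ (e.mv v) n < φ ((dir v).mv v) n
  P3 : ∀ v, 0 < φ v 0 → ∀ n, φ v (n + 1) = csum φ dir v n
  P4 : ∀ (e : Dir) n, φ (e.mv (τ, 0, 0)) n ≤ g n

/-- Data for a step. -/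
structure Step (P : Pat) where
  (x0 x1 a' : ℤ)
  δ : ℝ
  hx0 : x0 % P.c = 0
  hx1 : x1 % P.c = 0
  hx0' : 2 * (P.c * P.b) + 2 ≤ x0
  hL : P.h + P.τ + P.c * (P.b + 1) < x1 - x0
  oa' : a' % 2 = 1
  fit' : x1 + (P.h + P.τ + P.c * (P.b + 1)) + P.c * P.b * (P.a + 1) ≤ a' - 2
  hδ : 0 < δ

namespace Step

variable {P : Pat} (S : Step P)

/-- path length -/
def J (P : Pat) : ℕ := (P.τ + P.c * (P.b + 1) - 1).toNat

lemma J_eq (P : Pat) : (J P : ℤ) = P.τ + P.c * (P.b + 1) - 1 := by
  unfold J
  have := P.hτ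
  have := P.hc
  have := P.hb
  have : 0 < P.c * (P.b + 1) := by positivity
  omega

/-- trunk length -/
def L : ℕ := (S.x1 - S.x0).toNat

lemma L_eq : (S.L : ℤ) = S.x1 - S.x0 := by
  unfold L
  have := S.hL
  have := P.hτ
  have := P.hc
  have := P.hb
  have : 0 < P.c * (P.b + 1) := by positivity
  omega

/-- branch profile -/
noncomputable def D : ℕ → ℝ := DD P.g (J P) S.δ

lemma sdD : SDec S.D (J P + P.h) := P.sd.dd (J P) S.hδ

lemma HL : J P + P.h < S.L := by
  have h1 := J_eq P
  have h2 := S.L_eq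
  have h3 := S.hL
  omega

/-- trunk profile -/
noncomputable def f : ℕ → ℕ → ℝ := ff S.D S.L S.δ

/-- geometric parameters -/
def G : GP where
  a := P.a
  b := P.b
  c := P.c
  τ := P.τ
  x0 := S.x0
  x1 := S.x1
  Λ := P.c * (P.b + 1)
  H := fun t => (P.c * (P.b + 1) + t * (P.b - 1)) / 2
  hb := P.hb
  hc := P.hc
  hτ := P.hτ
  hτa := by
    have := P.fit
    have := P.hb
    have := P.hc
    have : 0 < P.c * (P.b + 1) := by positivity
    omega
  hx0 := S.hx0
  hx1 := S.hx1
  hx01 := by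
    have := S.hL
    have := P.hτ
    have := P.hc
    have := P.hb
    have : 0 < P.c * (P.b + 1) := by positivity
    omega
  hΛ := rfl
  hH := by
    intro t _ _
    have h1 : 2 ∣ P.c * (P.b + 1) := Dvd.dvd.mul_left (by have := P.ob; omega) _
    have h2 : 2 ∣ t * (P.b - 1) := Dvd.dvd.mul_left (by have := P.ob; omega) _
    have h3 : 2 ∣ P.c * (P.b + 1) + t * (P.b - 1) := dvd_add h1 h2
    omega

/-- value of a class -/
noncomputable def val : Cls → ℕ → ℝ
  | .trunk m, n => S.f m.toNat n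
  | .br i _, n => S.D (i.toNat + n)
  | .copy x y z, n => P.φ (x, y, z) n
  | .none, _ => 0

/-- direction of a class -/
def cdir (P : Pat) : Cls → Dir
  | .trunk _ => .xm
  | .br _ d => d
  | .copy x y z => (P.dir (x, y, z)).rot
  | .none => .xm

/-- new profile -/
noncomputable def φ' (v : V) (n : ℕ) : ℝ := S.val (S.G.cls v) n

/-- new directions -/
def dir' (v : V) : Dir := cdir P (S.G.cls v)

lemma trunkL {x y z m : ℤ} (h : S.G.cls (x, y, z) = .trunk m) : 0 ≤ m ∧ m.toNat ≤ S.L := by
  have h1 := S.G.trunk_all x y z m h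
  have h2 := S.L_eq
  have h3 : m ≤ S.x1 - S.x0 := h1.2.2.2.2.1
  omega

lemma φ'_nonneg (v : V) (n : ℕ) : 0 ≤ S.φ' v n := by
  unfold φ'
  cases h : S.G.cls v with
  | trunk m => exact ff_nonneg S.sdD S.hδ n
  | br i d => exact S.sdD.nonneg _
  | copy x y z => exact P.nonneg _ _
  | none => exact le_rfl

lemma φ'_pos0 (v : V) (n : ℕ) (hp : 0 < S.φ' v n) : 0 < S.φ' v 0 := by
  obtain ⟨x, y, z⟩ := v
  unfold φ' at hp ⊢
  cases h : S.G.cls (x, y, z) with
  | trunk m => exact ff_pos0 S.sdD S.hδ (S.trunkL h).2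
  | br i d =>
    rw [h] at hp
    exact lt_of_lt_of_le hp (S.sdD.antitone (by omega))
  | copy x y z =>
    rw [h] at hp
    exact P.pos0 _ _ hp
  | none =>
    rw [h] at hp
    exact absurd hp (lt_irrefl _)

/-- depth of a branch vertex carrying mass -/
lemma br_le {i : ℤ} {n : ℕ} (hp : 0 < S.D (i.toNat + n)) : i + n ≤ P.a - 3 := by
  have h1 := S.sdD.le_of_pos hp
  have h2 := J_eq P
  have h3 := P.fit
  omega

lemma φ'_supp (x y z : ℤ) (n : ℕ) (hp : 0 < S.φ' (x, y, z) n) :
    S.x0 ≤ x ∧ x ≤ S.a' - 2 ∧ 0 ≤ y ∧ y ≤ P.a - 2 ∧ 0 ≤ z ∧ z ≤ P.c * P.b - 2 := by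
  have hb := P.hb
  have hc := P.hc
  have hτ := P.hτ
  have hfit := P.fit
  have hfit' := S.fit'
  have hΛ : 0 < P.c * (P.b + 1) := by positivity
  have hcb : 0 < P.c * P.b := by positivity
  have hcb' : 2 ≤ P.c * P.b := by nlinarith
  have hcba : 0 ≤ P.c * P.b * (P.a + 1) := by
    have : 0 ≤ P.a + 1 := by omega
    positivity
  unfold φ' at hp
  cases h : S.G.cls (x, y, z) with
  | trunk m =>
    have h1 := S.G.trunk_all x y z m h
    have e1 : S.G.x0 = S.x0 := rfl
    have e2 : S.G.x1 = S.x1 := rfl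
    omega
  | br i d =>
    rw [h] at hp
    have h1 := S.br_le hp
    obtain ⟨h2, h3, h4, h5⟩ := S.G.br_all x y z i d h (by
      have e1 : S.G.a = P.a := rfl
      omega)
    have e1 : S.G.x0 = S.x0 := rfl
    have e2 : S.G.x1 = S.x1 := rfl
    have e3 : S.G.a = P.a := rfl
    have e4 : S.G.c * S.G.b = P.c * P.b := rfl
    omega
  | copy o1 o2 o3 =>
    rw [h] at hp
    have h1 := P.supp _ _ _ _ hp
    obtain ⟨h2, h3, h4, h5, h6, h7, h8, h9, h10⟩ := S.G.copy_all x y z o1 o2 o3 h
    have e1 : S.G.x0 = S.x0 := rfl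
    have e2 : S.G.x1 = S.x1 := rfl
    have e3 : S.G.a = P.a := rfl
    have e4 : S.G.b = P.b := rfl
    have e5 : S.G.c = P.c := rfl
    rw [e4] at h3 h9 h10
    have h11 := Int.emod_add_mul_ediv z P.b
    refine ⟨by omega, by omega, by omega, by omega, ?_, ?_⟩
    · have : 0 ≤ P.b * (z / P.b) := mul_nonneg (by omega) (by omega)
      omega
    · rw [e5] at h10
      nlinarith
  | none =>
    rw [h] at hp
    exact absurd hp (lt_irrefl _)

lemma φ'_fin (v : V) (n : ℕ) (hn : S.L + (J P + P.h) < n) : S.φ' v n = 0 := by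
  unfold φ'
  cases h : S.G.cls v with
  | trunk m => exact ff_zero S.sdD (by omega)
  | br i d => exact S.sdD.zero _ (by omega)
  | copy x y z => exact P.fin _ _ (by omega)
  | none => rfl

lemma cls_root : S.G.cls (S.x0, 0, 0) = .trunk 0 := by
  have hc := P.hc
  have hb := P.hb
  have hτ := P.hτ
  have h1 := S.G.hx01
  have h2 := S.G.hτa
  have e1 : S.G.x0 = S.x0 := rfl
  have e2 : S.G.x1 = S.x1 := rfl
  have e3 : S.G.τ = P.τ := rfl
  have hcb : 0 < P.c * P.b := by positivity
  have := GP.K_trunk (a := S.G.a) (b := S.G.b) (c := S.G.c) (τ := S.G.τ) (x0 := S.G.x0)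
    (x1 := S.G.x1) (Λ := S.G.Λ) (H := S.G.H) (x := S.x0) (X := S.x0 % S.G.c) (r := 0 / S.G.b)
    (w := 0 % S.G.b) (by omega) (by omega) hcb
  simp only [GP.cls]
  rw [this]
  simp [e1]

/-- values at the neighbours of a branch vertex -/
lemma br_vals {x y z i : ℤ} {d : Dir} {n : ℕ} (h : S.G.cls (x, y, z) = .br i d)
    (hp : 0 < S.D (i.toNat + n)) :
    S.D (i.toNat + n) < S.φ' (d.mv (x, y, z)) n ∧
    ∀ e : Dir, e ≠ d → S.φ' (e.mv (x, y, z)) n ≤ S.D (i.toNat + n) := by
  have h1 := S.br_le hp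
  obtain ⟨⟨i0, par0, par1, ch⟩, -, -, -⟩ := S.G.br_all x y z i d h (by
    have e1 : S.G.a = P.a := rfl
    omega)
  constructor
  · unfold φ'
    by_cases hi : i = 0
    · obtain ⟨-, m, hm, hm0, hm1⟩ := par0 hi
      rw [hm, hi]
      have : m.toNat < S.L := by
        have := S.L_eq
        have e1 : S.G.x0 = S.x0 := rfl
        have e2 : S.G.x1 = S.x1 := rfl
        omega
      have h3 : (0 : ℤ).toNat + n = n := by simp
      rw [h3]
      rw [hi, h3] at hp
      exact D_lt_ff S.sdD S.hδ this hp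
    · obtain ⟨d', hd, -⟩ := par1 hi
      rw [hd]
      change S.D (i.toNat + n) < S.D ((i - 1).toNat + n)
      have h3 : i.toNat + n = (i - 1).toNat + n + 1 := by omega
      rw [h3]
      apply S.sdD.anti
      have := S.sdD.le_of_pos hp
      omega
  · intro e he
    obtain ⟨e0, he0, hch, hoth⟩ := ch
    unfold φ'
    by_cases hee : e = e0
    · subst hee
      rcases hch with hch | ⟨-, hJ, hch⟩
      · rw [hch]
        exact S.sdD.antitone (by omega)
      · rw [hch]
        change P.φ (P.τ, 0, 0) n ≤ _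
        rw [P.root]
        have h4 : P.g n = S.D (J P + n) := (DD_add n).symm
        rw [h4]
        apply S.sdD.antitone
        have := J_eq P
        have e1 : S.G.τ = P.τ := rfl
        have e2 : S.G.Λ = P.c * (P.b + 1) := rfl
        omega
    · rcases hoth e he hee with h5 | ⟨d', h5, -⟩
      · rw [h5]; exact hp.le
      · rw [h5]; exact le_rfl

lemma br_csum {x y z i : ℤ} {d : Dir} (n : ℕ) (h : S.G.cls (x, y, z) = .br i d)
    (hp : 0 < S.D i.toNat) :
    S.D (i.toNat + (n + 1)) = csum S.φ' S.dir' (x, y, z) n := by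
  have h1 := S.br_le (i := i) (n := 0) (by simpa using hp)
  obtain ⟨⟨i0, par0, par1, ch⟩, -, -, -⟩ := S.G.br_all x y z i d h (by
    have e1 : S.G.a = P.a := rfl
    omega)
  obtain ⟨e0, he0, hch, hoth⟩ := ch
  unfold csum
  rw [Finset.sum_eq_single e0]
  · rcases hch with hch | ⟨hyp, hJ, hch⟩
    · unfold dir' φ'
      rw [hch]
      change _ = if e0.neg = e0.neg then S.D ((i + 1).toNat + n) else 0
      rw [if_pos rfl]
      congr 1
      omega
    · unfold dir' φ'
      rw [hch]
      change _ = if (P.dir (P.τ, 0, 0)).rot = e0.neg then P.φ (P.τ, 0, 0) n else 0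
      rw [P.rdir, hyp, if_pos (show Dir.xm.rot = Dir.yp.neg from rfl), P.root]
      have h4 : P.g n = S.D (J P + n) := (DD_add n).symm
      rw [h4]
      congr 1
      have := J_eq P
      have e1 : S.G.τ = P.τ := rfl
      have e2 : S.G.Λ = P.c * (P.b + 1) := rfl
      omega
  · intro e _ hee
    by_cases hed : e = d
    · subst hed
      by_cases hi : i = 0
      · obtain ⟨hxp, m, hm, -, -⟩ := par0 hi
        unfold dir'
        rw [hm]
        change (if Dir.xm = e.neg then _ else _) = _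
        rw [if_neg]
        intro hc
        apply hxp
        cases e <;> first | rfl | exact absurd hc (by decide)
      · obtain ⟨d', hd, hne⟩ := par1 hi
        unfold dir'
        rw [hd]
        exact if_neg hne
    · rcases hoth e hed hee with h5 | ⟨d', h5, hne⟩
      · unfold φ'
        rw [h5]
        change (if _ then (0 : ℝ) else 0) = 0
        simp
      · unfold dir'
        rw [h5]
        exact if_neg hne
  · intro hh
    exact absurd (Finset.mem_univ _) hh


/-- points outside the support box have zero mass -/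
lemma phi_out {o1 o2 o3 : ℤ} (h : S.G.Out o1 o2 o3) (n : ℕ) : P.φ (o1, o2, o3) n = 0 := by
  rcases (P.nonneg (o1, o2, o3) n).lt_or_eq with hp | hp
  · exfalso
    have := P.supp _ _ _ _ hp
    unfold GP.Out at h
    have e1 : S.G.τ = P.τ := rfl
    have e3 : S.G.a = P.a := rfl
    have e4 : S.G.b = P.b := rfl
    have e5 : S.G.c = P.c := rfl
    omega
  · exact hp.symm

/-- comparison of the neighbours of a copied vertex with the original -/
lemma copy_cmp {x y z o1 o2 o3 : ℤ} (h : S.G.cls (x, y, z) = .copy o1 o2 o3) {m : ℕ}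
    (hp : 0 < P.φ (o1, o2, o3) m) (e : Dir) :
    ((∀ n, S.φ' (e.rot.mv (x, y, z)) n = P.φ (e.mv (o1, o2, o3)) n) ∧
      ∀ n, (if S.dir' (e.rot.mv (x, y, z)) = e.rot.neg then S.φ' (e.rot.mv (x, y, z)) n else 0)
        = if P.dir (e.mv (o1, o2, o3)) = e.neg then P.φ (e.mv (o1, o2, o3)) n else 0) ∨
    (e = .xm ∧ (o1, o2, o3) = (P.τ, 0, 0) ∧ (∀ n, P.φ (e.mv (o1, o2, o3)) n = 0) ∧
      (∀ n, S.φ' (e.rot.mv (x, y, z)) n = S.D (J P - 1 + n)) ∧
      S.dir' (e.rot.mv (x, y, z)) ≠ e.rot.neg) := by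
  obtain ⟨h2, h3, h4, h5, h6, h7, h8, h9, h10⟩ := S.G.copy_all x y z o1 o2 o3 h
  have h11 := P.supp _ _ _ _ hp
  have e1 : S.G.τ = P.τ := rfl
  have e3 : S.G.a = P.a := rfl
  have e4 : S.G.b = P.b := rfl
  have e5 : S.G.c = P.c := rfl
  have h2' := h2.symm
  have h3' := h3.symm
  have h4' := h4.symm
  subst h2' h3' h4'
  have key := S.G.copy_nb x y z h5 h6 h7 (by omega) ⟨h9, h10⟩ (by omega) (by omega) e
  rcases key with hk | ⟨ho, hk⟩ | ⟨he, hy, hw, hX, hk⟩
  · left
    constructor
    · intro n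
      unfold φ'
      rw [hk]
      rfl
    · intro n
      unfold φ' dir'
      rw [hk]
      change (if (P.dir _).rot = _ then P.φ _ n else 0) = _
      rw [rot_neg]
      simp only [rot_inj]
  · left
    have hz : ∀ n, P.φ (e.mv (y, z % S.G.b, x % S.G.c)) n = 0 := fun n => S.phi_out ho n
    have hz' : ∀ n, S.φ' (e.rot.mv (x, y, z)) n = 0 := by
      intro n
      unfold φ'
      rcases hk with hk | ⟨p, q, r, hk, ho'⟩
      · rw [hk]; rfl
      · rw [hk]; exact S.phi_out ho' n
    constructor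
    · intro n
      rw [hz n, hz' n]
    · intro n
      rw [hz n, hz' n]
      simp
  · right
    refine ⟨he, ?_, ?_, ?_, ?_⟩
    · rw [hy, hw, hX, e1]
    · intro n
      apply S.phi_out
      left
      rw [he, hy]
      change S.G.τ - 1 < S.G.τ
      omega
    · intro n
      unfold φ'
      rw [hk]
      change S.D ((S.G.τ + S.G.Λ - 2).toNat + n) = _
      congr 1
      have := J_eq P
      have e2 : S.G.Λ = P.c * (P.b + 1) := rfl
      omega
    · unfold dir'
      rw [hk, he]
      change Dir.ym ≠ Dir.xm.rot.neg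
      decide

lemma φ'_P1 (v : V) (hv : v ≠ (S.x0, 0, 0)) (n : ℕ) (hp : 0 < S.φ' v n) :
    S.φ' v n < S.φ' ((S.dir' v).mv v) n ∧
    ∀ e : Dir, e ≠ S.dir' v → S.φ' (e.mv v) n < S.φ' ((S.dir' v).mv v) n := by
  obtain ⟨x, y, z⟩ := v
  cases h : S.G.cls (x, y, z) with
  | trunk m =>
    obtain ⟨hy, hz, hm, hm0, hm1, t1, t2, t3, t4, t5, t6⟩ := S.G.trunk_all x y z m h
    have e1 : S.G.x0 = S.x0 := rfl
    have e2 : S.G.x1 = S.x1 := rfl
    have hL := S.L_eq
    have hm2 : 0 < m := by
      rcases hm0.lt_or_eq with h0 | h0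
      · exact h0
      · exfalso
        apply hv
        rw [hy, hz]
        congr 1
        omega
    have hd : S.dir' (x, y, z) = .xm := by unfold dir'; rw [h]; rfl
    have hv0 : S.φ' (x, y, z) n = S.f m.toNat n := by unfold φ'; rw [h]; rfl
    rw [hv0] at hp ⊢
    rw [hd]
    have hpar : S.φ' (Dir.xm.mv (x, y, z)) n = S.f (m - 1).toNat n := by
      unfold φ'; rw [t2, if_pos hm2]; rfl
    have hlt : S.f m.toNat n < S.f (m - 1).toNat n := by
      have h3 : m.toNat = (m - 1).toNat + 1 := by omega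
      rw [h3] at hp ⊢
      exact ff_lt S.sdD S.hδ (by omega) hp
    rw [hpar]
    refine ⟨hlt, ?_⟩
    have hpos : 0 < S.f (m - 1).toNat n := hp.trans hlt
    intro e he
    unfold φ'
    cases e with
    | xp =>
      rw [t1]
      split_ifs with h3
      · refine lt_of_le_of_lt ?_ hlt
        change S.f (m + 1).toNat n ≤ S.f m.toNat n
        have h4 : (m + 1).toNat = m.toNat + 1 := by omega
        rw [h4]
        exact ff_le S.sdD S.hδ (by omega)
      · exact hpos
    | xm => exact absurd rfl he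
    | yp =>
      rw [t3]
      split_ifs with h3
      · refine lt_of_le_of_lt ?_ hlt
        change S.D ((0 : ℤ).toNat + n) ≤ S.f m.toNat n
        have h4 : (0 : ℤ).toNat + n = n := by simp
        rw [h4]
        exact D_le_ff S.sdD S.hδ (by omega)
      · exact hpos
    | ym => rw [t4]; exact hpos
    | zp => rw [t5]; exact hpos
    | zm => rw [t6]; exact hpos
  | br i d =>
    have hd : S.dir' (x, y, z) = d := by unfold dir'; rw [h]; rfl
    have hv0 : S.φ' (x, y, z) n = S.D (i.toNat + n) := by unfold φ'; rw [h]; rfl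
    rw [hv0] at hp ⊢
    rw [hd]
    obtain ⟨h1, h2⟩ := S.br_vals h hp
    exact ⟨h1, fun e he => lt_of_le_of_lt (h2 e he) h1⟩
  | copy o1 o2 o3 =>
    have hd : S.dir' (x, y, z) = (P.dir (o1, o2, o3)).rot := by unfold dir'; rw [h]; rfl
    have hv0 : S.φ' (x, y, z) n = P.φ (o1, o2, o3) n := by unfold φ'; rw [h]; rfl
    rw [hv0] at hp ⊢
    rw [hd]
    by_cases ho : (o1, o2, o3) = (P.τ, 0, 0)
    · rw [ho, P.rdir]
      rw [ho, P.root] at hp
      rw [P.root]
      have hJ := J_eq P
      have hJ1 : 1 ≤ J P := by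
        have := P.hτ
        have := P.hc
        have := P.hb
        have : 0 < P.c * (P.b + 1) := by positivity
        omega
      have hpar : S.φ' (Dir.xm.rot.mv (x, y, z)) n = S.D (J P - 1 + n) := by
        rcases S.copy_cmp h (m := n) (by rw [ho, P.root]; exact hp) .xm with h1 | h1
        · exfalso
          -- the class at the parent is a branch
          obtain ⟨h2, h3, h4, h5, h6, h7, h8, h9, h10⟩ := S.G.copy_all x y z o1 o2 o3 h
          have ho1 : o1 = P.τ := congrArg Prod.fst ho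
          have ho2 : o2 = 0 := congrArg (fun v => v.2.1) ho
          have ho3 : o3 = 0 := congrArg (fun v => v.2.2) ho
          have hfit := P.fit
          have e3 : S.G.a = P.a := rfl
          have e4 : S.G.b = P.b := rfl
          have e5 : S.G.c = P.c := rfl
          have hτ := P.hτ
          have hc := P.hc
          have hb := P.hb
          have hΛ : 0 < P.c * (P.b + 1) := by positivity
          have key := S.G.copy_nb x y z h5 h6 h7 (by omega) ⟨h9, h10⟩ (by omega) (by omega) .xm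
          rcases key with hk | ⟨hout, hk⟩ | ⟨-, hy, hw, hX, hk⟩
          · have := S.G.copy_all _ _ _ _ _ _ hk
            simp only [mv] at this
            have e1 : S.G.τ = P.τ := rfl
            omega
          · have h12 := h1.1 n
            have hE : S.G.cls (Dir.xm.rot.mv (x, y, z)) = .br (S.G.τ + S.G.Λ - 2) .ym := by
              simp only [Dir.rot, GP.cls, mv]
              have zb2 := (S.G.facts x y z).zb2 (by omega)
              have zu := (S.G.facts x y z).zu h10
              have e1 : S.G.τ = P.τ := rfl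
              rw [GP.K_E ⟨h5, h6, by omega, by omega, by omega, by omega⟩ (by omega)
                ⟨by omega, by omega, h9, h10, by omega⟩]
              congr 1
              omega
            rcases hk with hk | ⟨p, q, r, hk, -⟩
            · rw [hE] at hk; cases hk
            · rw [hE] at hk; cases hk
          · unfold φ' at h1
            rw [hk] at h1
            have h12 := h1.1 n
            have h13 : P.φ (Dir.xm.mv (o1, o2, o3)) n = 0 := by
              apply S.phi_out
              left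
              have e1 : S.G.τ = P.τ := rfl
              change o1 - 1 < S.G.τ
              omega
            rw [h13] at h12
            have h14 : S.D ((S.G.τ + S.G.Λ - 2).toNat + n) = 0 := h12
            have h15 : P.g n = S.D (J P + n) := (DD_add n).symm
            rw [h15] at hp
            have h16 : S.D (J P + n) ≤ S.D ((S.G.τ + S.G.Λ - 2).toNat + n) := by
              apply S.sdD.antitone
              have e1 : S.G.τ = P.τ := rfl
              have e2 : S.G.Λ = P.c * (P.b + 1) := rfl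
              omega
            linarith
        · exact h1.2.2.2.1 n
      rw [hpar]
      have hgD : P.g n = S.D (J P + n) := (DD_add n).symm
      have hlt : P.g n < S.D (J P - 1 + n) := by
        rw [hgD] at hp ⊢
        have h3 : J P + n = (J P - 1 + n) + 1 := by omega
        rw [h3]
        apply S.sdD.anti
        have := S.sdD.le_of_pos hp
        omega
      refine ⟨hlt, ?_⟩
      intro e he
      obtain ⟨e', rfl⟩ : ∃ e' : Dir, e'.rot = e := ⟨rotE.symm e, rotE.apply_symm_apply e⟩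
      rcases S.copy_cmp h (m := n) (by rw [ho, P.root]; exact hp) e' with h1 | h1
      · rw [h1.1 n, ho]
        exact lt_of_le_of_lt (P.P4 e' n) hlt
      · exact absurd (by rw [h1.1]) he
    · obtain ⟨h1, h2⟩ := P.P1 _ ho n hp
      have hh : ∀ e' : Dir, S.φ' (e'.rot.mv (x, y, z)) n = P.φ (e'.mv (o1, o2, o3)) n := by
        intro e'
        rcases S.copy_cmp h hp e' with h3 | h3
        · exact h3.1 n
        · exact absurd h3.2.1 ho
      rw [hh]
      refine ⟨h1, ?_⟩
      intro e he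
      obtain ⟨e', rfl⟩ : ∃ e' : Dir, e'.rot = e := ⟨rotE.symm e, rotE.apply_symm_apply e⟩
      rw [hh]
      apply h2
      intro hc
      apply he
      rw [hc]
  | none =>
    have hv0 : S.φ' (x, y, z) n = 0 := by unfold φ'; rw [h]; rfl
    rw [hv0] at hp
    exact absurd hp (lt_irrefl _)

lemma φ'_P3 (v : V) (hp : 0 < S.φ' v 0) (n : ℕ) :
    S.φ' v (n + 1) = csum S.φ' S.dir' v n := by
  obtain ⟨x, y, z⟩ := v
  cases h : S.G.cls (x, y, z) with
  | trunk m =>
    obtain ⟨hy, hz, hm, hm0, hm1, t1, t2, t3, t4, t5, t6⟩ := S.G.trunk_all x y z m h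
    have e1 : S.G.x0 = S.x0 := rfl
    have e2 : S.G.x1 = S.x1 := rfl
    have hL := S.L_eq
    have hv0 : S.φ' (x, y, z) (n + 1) = S.f m.toNat (n + 1) := by unfold φ'; rw [h]; rfl
    rw [hv0]
    unfold csum
    rw [sum_dir]
    have s2 : (if S.dir' (Dir.xm.mv (x, y, z)) = Dir.xm.neg then
        S.φ' (Dir.xm.mv (x, y, z)) n else 0) = 0 := by
      unfold dir' φ'
      rw [t2]
      split_ifs with h1 h2
      · exact absurd (show Dir.xm = Dir.xm.neg from h2) (by decide)
      · rfl
      · rfl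
      · rfl
    have s4 : (if S.dir' (Dir.ym.mv (x, y, z)) = Dir.ym.neg then
        S.φ' (Dir.ym.mv (x, y, z)) n else 0) = 0 := by
      unfold dir' φ'
      rw [t4]
      split_ifs <;> rfl
    have s5 : (if S.dir' (Dir.zp.mv (x, y, z)) = Dir.zp.neg then
        S.φ' (Dir.zp.mv (x, y, z)) n else 0) = 0 := by
      unfold dir' φ'
      rw [t5]
      split_ifs <;> rfl
    have s6 : (if S.dir' (Dir.zm.mv (x, y, z)) = Dir.zm.neg then
        S.φ' (Dir.zm.mv (x, y, z)) n else 0) = 0 := by
      unfold dir' φ'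
      rw [t6]
      split_ifs <;> rfl
    rw [s2, s4, s5, s6]
    by_cases hmL : m < S.G.x1 - S.G.x0
    · have s1 : (if S.dir' (Dir.xp.mv (x, y, z)) = Dir.xp.neg then
          S.φ' (Dir.xp.mv (x, y, z)) n else 0) = S.f (m.toNat + 1) n := by
        unfold dir' φ'
        rw [t1, if_pos hmL]
        have h4 : (m + 1).toNat = m.toNat + 1 := by omega
        change (if Dir.xm = Dir.xp.neg then S.f (m + 1).toNat n else 0) = _
        rw [if_pos (show Dir.xm = Dir.xp.neg from rfl), h4]
      have s3 : (if S.dir' (Dir.yp.mv (x, y, z)) = Dir.yp.neg then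
          S.φ' (Dir.yp.mv (x, y, z)) n else 0) = S.D n := by
        unfold dir' φ'
        rw [t3, if_pos hmL]
        change (if Dir.ym = Dir.yp.neg then S.D ((0 : ℤ).toNat + n) else 0) = _
        rw [if_pos (show Dir.ym = Dir.yp.neg from rfl)]
        simp
      rw [s1, s3]
      have := ff_succ (D := S.D) (L := S.L) (δ := S.δ) (m := m.toNat) (n := n) (by omega)
      unfold f
      linarith
    · have s1 : (if S.dir' (Dir.xp.mv (x, y, z)) = Dir.xp.neg then
          S.φ' (Dir.xp.mv (x, y, z)) n else 0) = 0 := by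
        unfold dir' φ'
        rw [t1, if_neg hmL]
        split_ifs <;> rfl
      have s3 : (if S.dir' (Dir.yp.mv (x, y, z)) = Dir.yp.neg then
          S.φ' (Dir.yp.mv (x, y, z)) n else 0) = 0 := by
        unfold dir' φ'
        rw [t3, if_neg hmL]
        split_ifs <;> rfl
      rw [s1, s3]
      have hmm : m.toNat = S.L := by omega
      unfold f
      rw [hmm, ff_last]
      simp
  | br i d =>
    have hv0 : S.φ' (x, y, z) (n + 1) = S.D (i.toNat + (n + 1)) := by unfold φ'; rw [h]; rfl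
    rw [hv0]
    apply S.br_csum n h
    have hv1 : S.φ' (x, y, z) 0 = S.D (i.toNat + 0) := by unfold φ'; rw [h]; rfl
    rw [hv1] at hp
    simpa using hp
  | copy o1 o2 o3 =>
    have hv0 : S.φ' (x, y, z) (n + 1) = P.φ (o1, o2, o3) (n + 1) := by unfold φ'; rw [h]; rfl
    have hv1 : S.φ' (x, y, z) 0 = P.φ (o1, o2, o3) 0 := by unfold φ'; rw [h]; rfl
    rw [hv0]
    rw [hv1] at hp
    rw [P.P3 _ hp n]
    unfold csum
    rw [← Equiv.sum_comp rotE (fun e => if S.dir' (e.mv (x, y, z)) = e.neg then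
      S.φ' (e.mv (x, y, z)) n else 0)]
    apply Finset.sum_congr rfl
    intro e _
    change _ = (if S.dir' (e.rot.mv (x, y, z)) = e.rot.neg then
      S.φ' (e.rot.mv (x, y, z)) n else 0)
    rcases S.copy_cmp h hp e with h1 | ⟨h1, h2, h3, h4, h5⟩
    · exact (h1.2 n).symm
    · rw [if_neg h5, h3 n]
      simp
  | none =>
    have hv0 : S.φ' (x, y, z) 0 = 0 := by unfold φ'; rw [h]; rfl
    rw [hv0] at hp
    exact absurd hp (lt_irrefl _)

lemma φ'_P4 (e : Dir) (n : ℕ) : S.φ' (e.mv (S.x0, 0, 0)) n ≤ S.f 0 n := by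
  have h := S.cls_root
  obtain ⟨hy, hz, hm, hm0, hm1, t1, t2, t3, t4, t5, t6⟩ := S.G.trunk_all _ _ _ _ h
  have hL := S.L_eq
  have e1 : S.G.x0 = S.x0 := rfl
  have e2 : S.G.x1 = S.x1 := rfl
  have h0 : 0 ≤ S.f 0 n := ff_nonneg S.sdD S.hδ n
  unfold φ'
  cases e with
  | xp =>
    rw [t1]
    split_ifs with h3
    · change S.f ((0 : ℤ) + 1).toNat n ≤ S.f 0 n
      exact ff_le (m := 0) S.sdD S.hδ (by omega)
    · exact h0
  | xm => rw [t2, if_neg (lt_irrefl _)]; exact h0
  | yp =>
    rw [t3]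
    split_ifs with h3
    · change S.D ((0 : ℤ).toNat + n) ≤ S.f 0 n
      have h4 : (0 : ℤ).toNat + n = n := by simp
      rw [h4]
      exact D_le_ff S.sdD S.hδ (by omega)
    · exact h0
  | ym => rw [t4]; exact h0
  | zp => rw [t5]; exact h0
  | zm => rw [t6]; exact h0

/-- The next pattern. -/
noncomputable def next : Pat where
  a := S.a'
  b := P.a
  c := P.c * P.b
  τ := S.x0
  h := S.L + (J P + P.h)
  g := S.f 0
  φ := S.φ'
  dir := S.dir'
  hb := by
    have := P.fit
    have := P.hτ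
    have := P.hc
    have := P.hb
    have : 0 < P.c * (P.b + 1) := by positivity
    omega
  hc := by
    have := P.hc
    have := P.hb
    nlinarith
  oa := S.oa'
  ob := P.oa
  oc := by
    have h1 := P.oc
    have h2 := P.ob
    rw [Int.mul_emod, h1, h2]
    rfl
  hτ := S.hx0'
  fit := by
    have h1 := S.L_eq
    have h2 := J_eq P
    have h3 := S.fit'
    push_cast
    rw [h1, h2]
    have : P.c * P.b * (P.a + 1) = P.c * P.b * (P.a + 1) := rfl
    omega
  sd := sdec_ff S.sdD S.hδ S.HL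
  nonneg := S.φ'_nonneg
  pos0 := S.φ'_pos0
  supp := S.φ'_supp
  fin := S.φ'_fin
  root := by
    intro n
    unfold φ'
    rw [S.cls_root]
    rfl
  rdir := by
    unfold dir'
    rw [S.cls_root]
    rfl
  P1 := S.φ'_P1
  P3 := S.φ'_P3
  P4 := S.φ'_P4

end Step

end Helper63.Clust
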