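import Pool.Agent.Helper63.Clust.Num
import Pool.Agent.Helper99.Clust.FromTower

/-! The concrete tower and its bounds. -/

open MeasureTheory Set Filter
open scoped ENNReal Topology

namespace Helper63.Clust

open Pool.Agent.Helper99.Clust

/-- exponent choices -/
noncomputable def exps (k : ℕ) : ℕ × ℕ × ℕ :=
  ⟨(lv k).2.pw.choose, (lv k).2.pw.choose_spec.choose,
    (lv k).2.pw.choose_spec.choose_spec.choose⟩

lemma exps_spec (k : ℕ) : (lv k).1.a = 3 ^ (exps k).1 ∧ (lv k).1.b = 3 ^ (exps k).2.1 ∧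
    (lv k).1.c = 3 ^ (exps k).2.2 :=
  (lv k).2.pw.choose_spec.choose_spec.choose_spec

/-- the concrete tower -/
noncomputable def tower : Tower where
  P k := (lv k).1
  st k := stp k
  succ k := lv_succ k
  al k := (exps k).1
  be k := (exps k).2.1
  ga k := (exps k).2.2
  ha k := (exps_spec k).1
  hb k := (exps_spec k).2.1
  hc k := (exps_spec k).2.2

lemma pow3_inj {m n : ℕ} (h : (3 : ℤ) ^ m = 3 ^ n) : m = n :=
  pow_right_injective₀ (by norm_num : (0 : ℤ) < 3) (by norm_num) h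

lemma be_succ (k : ℕ) : tower.be (k + 1) = tower.al k := by
  apply pow3_inj
  rw [← tower.hb, ← tower.ha, tower.b_succ]

lemma ga_succ (k : ℕ) : tower.ga (k + 1) = tower.ga k + tower.be k := by
  apply pow3_inj
  rw [pow_add, ← tower.hb, ← tower.hc, ← tower.hc, tower.c_succ]

lemma own_resv (k : ℕ) (ξ : Odo 3) : own k (resv (tower.e k) ξ) =
    (res (tower.al k) (ξ ((s ^ k) 0)), res (tower.be k) (ξ ((s ^ k) 1)),
      res (tower.ga k) (ξ ((s ^ k) 2))) := by
  simp only [own, resv, Tower.e, inv_s]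
  rfl

lemma ij (k : ℕ) : (s ^ k) 0 ≠ (s ^ k) 1 := fun h => by
  have := (s ^ k).injective h
  exact absurd this (by decide)

lemma il (k : ℕ) : (s ^ k) 0 ≠ (s ^ k) 2 := fun h => by
  have := (s ^ k).injective h
  exact absurd this (by decide)

lemma jl (k : ℕ) : (s ^ k) 1 ≠ (s ^ k) 2 := fun h => by
  have := (s ^ k).injective h
  exact absurd this (by decide)

lemma s1 (k : ℕ) : (s ^ (k + 1)) 1 = (s ^ k) 0 := by
  rw [pow_succ, Equiv.Perm.mul_apply]; rfl

lemma s2 (k : ℕ) : (s ^ (k + 1)) 2 = (s ^ k) 1 := by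
  rw [pow_succ, Equiv.Perm.mul_apply]; rfl

lemma s0 (k : ℕ) : (s ^ (k + 1)) 0 = (s ^ k) 2 := by
  rw [pow_succ, Equiv.Perm.mul_apply]; rfl

/-- expected weight at level `k` -/
noncomputable def EW (k : ℕ) : ℝ≥0∞ :=
  ∫⁻ ξ, tower.W k (resv (tower.e k) ξ) 0 ∂odo 3

lemma EW_succ (k : ℕ) : EW (k + 1) ≤ EW k + ENNReal.ofReal (36 * (1 / 2) ^ k) := by
  have h := expect_step k (stp k) (lv k).2 (stp_inv k) (tower.ha k) (tower.hb k) (tower.hc k)
    (α' := tower.al (k + 1)) (by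
      have := tower.ha (k + 1)
      rw [tower.a_succ] at this
      exact this) (i := (s ^ (k + 1)) 0) (j := (s ^ (k + 1)) 1) (l := (s ^ (k + 1)) 2)
    (ij _) (il _) (jl _)
  have e1 : EW (k + 1) = ∫⁻ ξ, ENNReal.ofReal ((stp k).φ' (res (tower.al (k + 1))
      (ξ ((s ^ (k + 1)) 0)), res (tower.al k) (ξ ((s ^ (k + 1)) 1)),
      res (tower.ga k + tower.be k) (ξ ((s ^ (k + 1)) 2))) 0) ∂odo 3 := by
    unfold EW
    refine lintegral_congr fun ξ => ?_
    change ENNReal.ofReal ((tower.P (k + 1)).φ (own (k + 1) (resv (tower.e (k + 1)) ξ)) 0) = _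
    rw [own_resv, be_succ, ga_succ]
    rfl
  have e2 : EW k = ∫⁻ ξ, ENNReal.ofReal ((lv k).1.φ (res (tower.al k)
      (ξ ((s ^ (k + 1)) 1)), res (tower.be k) (ξ ((s ^ (k + 1)) 2)),
      res (tower.ga k) (ξ ((s ^ (k + 1)) 0))) 0) ∂odo 3 := by
    unfold EW
    refine lintegral_congr fun ξ => ?_
    change ENNReal.ofReal ((tower.P k).φ (own k (resv (tower.e k) ξ)) 0) = _
    rw [own_resv, s0, s1, s2]
    rfl
  rw [e1, e2]
  exact h

lemma EW_zero : EW 0 ≤ 1 := by
  unfold EW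
  have h : ∀ ξ : Odo 3, tower.W 0 (resv (tower.e 0) ξ) 0 ≤ 1 := by
    intro ξ
    change ENNReal.ofReal (base.φ (own 0 (resv (tower.e 0) ξ)) 0) ≤ 1
    rw [← ENNReal.ofReal_one]
    apply ENNReal.ofReal_le_ofReal
    change (if _ then (1 : ℝ) else 0) ≤ 1
    split_ifs <;> norm_num
  refine (lintegral_mono h).trans ?_
  simp

lemma EW_le (k : ℕ) : EW k ≤ ENNReal.ofReal (73 - 72 * (1 / 2) ^ k) := by
  induction k with
  | zero => simpa using EW_zero.trans (by norm_num)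
  | succ k ih =>
    have h0 : (0 : ℝ) ≤ 73 - 72 * (1 / 2) ^ k := by
      have : (1 / 2 : ℝ) ^ k ≤ 1 := pow_le_one₀ (by norm_num) (by norm_num)
      linarith
    refine (EW_succ k).trans ?_
    refine (add_le_add ih le_rfl).trans ?_
    rw [← ENNReal.ofReal_add h0 (by positivity)]
    apply ENNReal.ofReal_le_ofReal
    rw [pow_succ]
    linarith

theorem hB : ∃ B : ℝ≥0∞, B ≠ ∞ ∧
    ∀ k, ∫⁻ ξ, tower.levels.W k (resv (tower.levels.e k) ξ) 0 ∂odo 3 ≤ B := by
  refine ⟨ENNReal.ofReal 73, ENNReal.ofReal_ne_top, fun k => ?_⟩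
  refine (EW_le k).trans ?_
  apply ENNReal.ofReal_le_ofReal
  have : (0 : ℝ) ≤ (1 / 2) ^ k := by positivity
  linarith

lemma badProb_le (k : ℕ) : tower.levels.badProb k ≤ ENNReal.ofReal (11 * (1 / 2) ^ k) := by
  have h := bad_prob k (stp k) (lv k).2 (stp_inv k) (tower.ha k) (tower.hb k) (tower.hc k)
    (α' := tower.al (k + 1)) (by
      have := tower.ha (k + 1)
      rw [tower.a_succ] at this
      exact this) (i := (s ^ (k + 1)) 0) (j := (s ^ (k + 1)) 1) (l := (s ^ (k + 1)) 2)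
    (ij _) (il _) (jl _)
  refine le_trans (measure_mono ?_) h
  intro ξ hξ
  change ¬ tower.Ok k (own (k + 1) (resv (tower.e (k + 1)) (shift ξ 0))) at hξ
  rw [shift_zero, own_resv, be_succ, ga_succ] at hξ
  exact hξ

theorem hbad : ∑' k, tower.levels.badProb k ≠ ∞ := by
  have h1 : ∑' k, tower.levels.badProb k ≤ ∑' k : ℕ, ENNReal.ofReal (11 * (1 / 2) ^ k) :=
    ENNReal.tsum_le_tsum badProb_le
  refine ne_top_of_le_ne_top ?_ h1
  have hs : Summable fun k : ℕ => (11 : ℝ) * (1 / 2) ^ k :=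
    (summable_geometric_of_lt_one (by norm_num) (by norm_num)).mul_left 11
  rw [← ENNReal.ofReal_tsum_of_nonneg (fun k => by positivity) hs]
  exact ENNReal.ofReal_ne_top

end Helper63.Clust
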