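import Mathlib

/-! Profiles: the sequences `D`, `f` used in the recursive construction. -/

open Finset

namespace Helper63.Clust

/-- Branch profile: `J` path vertices above a tree with root profile `g`. -/
noncomputable def DD (g : ℕ → ℝ) (J : ℕ) (δ : ℝ) (i : ℕ) : ℝ :=
  if i < J then g 0 + ((J : ℝ) - i) * δ else g (i - J)

/-- Trunk weights. -/
noncomputable def TT (D : ℕ → ℝ) (L : ℕ) (δ : ℝ) (m : ℕ) : ℝ :=
  D 0 + δ + ∑ i ∈ Ico m L, D i + ((L : ℝ) - m) * δ

/-- Profile of the trunk vertex number `m`. -/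
noncomputable def ff (D : ℕ → ℝ) (L : ℕ) (δ : ℝ) (m n : ℕ) : ℝ :=
  if m + n ≤ L then TT D L δ (m + n) + ∑ i ∈ range n, D i
  else ∑ i ∈ Ico (m + n - L) n, D i

/-- sequences positive and strictly decreasing up to `h`, zero afterwards. -/
structure SDec (g : ℕ → ℝ) (h : ℕ) : Prop where
  pos : ∀ n, n ≤ h → 0 < g n
  anti : ∀ n, n ≤ h → g (n + 1) < g n
  zero : ∀ n, h < n → g n = 0

namespace SDec

variable {g : ℕ → ℝ} {h : ℕ}

lemma nonneg (hg : SDec g h) (n : ℕ) : 0 ≤ g n := by
  rcases le_or_gt n h with hn | hn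
  · exact (hg.pos n hn).le
  · exact (hg.zero n hn).ge

lemma le_of_pos (hg : SDec g h) {n : ℕ} (hn : 0 < g n) : n ≤ h := by
  by_contra hc
  push Not at hc
  rw [hg.zero n hc] at hn
  exact lt_irrefl _ hn

lemma antitone (hg : SDec g h) : Antitone g := by
  apply antitone_nat_of_succ_le
  intro n
  rcases le_or_gt n h with hn | hn
  · exact (hg.anti n hn).le
  · rw [hg.zero n hn, hg.zero (n + 1) (by omega)]

end SDec

lemma DD_of_lt {g : ℕ → ℝ} {J : ℕ} {δ : ℝ} {i : ℕ} (hi : i < J) :
    DD g J δ i = g 0 + ((J : ℝ) - i) * δ := by simp [DD, hi]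

lemma DD_of_ge {g : ℕ → ℝ} {J : ℕ} {δ : ℝ} {i : ℕ} (hi : J ≤ i) :
    DD g J δ i = g (i - J) := by simp [DD, Nat.not_lt.mpr hi]

lemma DD_add {g : ℕ → ℝ} {J : ℕ} {δ : ℝ} (n : ℕ) : DD g J δ (J + n) = g n := by
  rw [DD_of_ge (by omega)]; congr 1; omega

lemma SDec.dd {g : ℕ → ℝ} {h : ℕ} (hg : SDec g h) (J : ℕ) {δ : ℝ} (hδ : 0 < δ) :
    SDec (DD g J δ) (J + h) := by
  have hp0 : 0 < g 0 := hg.pos 0 (Nat.zero_le _)
  refine ⟨?_, ?_, ?_⟩
  · intro n hn
    rcases lt_or_ge n J with h1 | h1
    · rw [DD_of_lt h1]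
      have : (n : ℝ) < J := by exact_mod_cast h1
      have : 0 < ((J : ℝ) - n) * δ := mul_pos (by linarith) hδ
      linarith
    · rw [DD_of_ge h1]
      exact hg.pos _ (by omega)
  · intro n hn
    rcases lt_or_ge n J with h1 | h1
    · rw [DD_of_lt h1]
      rcases lt_or_ge (n + 1) J with h2 | h2
      · rw [DD_of_lt h2]
        push_cast
        nlinarith
      · have h3 : n + 1 = J := by omega
        rw [DD_of_ge h2]
        have h4 : n + 1 - J = 0 := by omega
        rw [h4]
        have : (n : ℝ) < J := by exact_mod_cast h1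
        have : 0 < ((J : ℝ) - n) * δ := mul_pos (by linarith) hδ
        linarith
    · rw [DD_of_ge h1, DD_of_ge (by omega)]
      have h4 : n + 1 - J = (n - J) + 1 := by omega
      rw [h4]
      exact hg.anti _ (by omega)
  · intro n hn
    rw [DD_of_ge (by omega)]
    exact hg.zero _ (by omega)

lemma DD_le {g : ℕ → ℝ} {h : ℕ} (hg : SDec g h) (J : ℕ) {δ : ℝ} (hδ : 0 < δ) (i : ℕ) :
    DD g J δ i ≤ g 0 + (J : ℝ) * δ := by
  rcases lt_or_ge i J with h1 | h1
  · rw [DD_of_lt h1]
    have : (0 : ℝ) ≤ i := by positivity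
    nlinarith
  · rw [DD_of_ge h1]
    have := hg.antitone (Nat.zero_le (i - J))
    have : 0 ≤ (J : ℝ) * δ := by positivity
    linarith

section trunk

variable {D : ℕ → ℝ} {H L : ℕ} {δ : ℝ}

lemma TT_succ {m : ℕ} (hm : m < L) : TT D L δ m = TT D L δ (m + 1) + D m + δ := by
  unfold TT
  rw [Finset.sum_eq_sum_Ico_succ_bot hm]
  push_cast
  ring

lemma ff_succ {m n : ℕ} (hm : m < L) : ff D L δ m (n + 1) = ff D L δ (m + 1) n + D n := by
  unfold ff
  by_cases h1 : m + (n + 1) ≤ L
  · rw [if_pos h1, if_pos (by omega), Finset.sum_range_succ]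
    have : m + (n + 1) = m + 1 + n := by ring
    rw [this]; ring
  · rw [if_neg h1, if_neg (by omega)]
    have : m + (n + 1) - L = m + 1 + n - L := by omega
    rw [this, Finset.sum_Ico_succ_top (by omega)]

lemma ff_last {n : ℕ} : ff D L δ L (n + 1) = 0 := by
  unfold ff
  rw [if_neg (by omega)]
  have : L + (n + 1) - L = n + 1 := by omega
  rw [this]
  simp

lemma TT_pos (hD : SDec D H) (hδ : 0 < δ) {m : ℕ} (hm : m ≤ L) : D 0 < TT D L δ m := by
  unfold TT
  have h1 : 0 ≤ ∑ i ∈ Ico m L, D i := Finset.sum_nonneg fun i _ => hD.nonneg i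
  have h2 : (m : ℝ) ≤ L := by exact_mod_cast hm
  have h3 : 0 ≤ ((L : ℝ) - m) * δ := mul_nonneg (by linarith) hδ.le
  linarith

lemma ff_nonneg (hD : SDec D H) (hδ : 0 < δ) {m : ℕ} (n : ℕ) : 0 ≤ ff D L δ m n := by
  unfold ff
  split_ifs with h
  · have h1 := TT_pos hD hδ h
    have h2 : 0 ≤ ∑ i ∈ range n, D i := Finset.sum_nonneg fun i _ => hD.nonneg i
    have h3 := hD.nonneg 0
    linarith
  · exact Finset.sum_nonneg fun i _ => hD.nonneg i

lemma ff_pos0 (hD : SDec D H) (hδ : 0 < δ) {m : ℕ} (hm : m ≤ L) : 0 < ff D L δ m 0 := by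
  unfold ff
  rw [if_pos (by omega)]
  have h1 := TT_pos hD hδ (m := m + 0) (L := L) (by omega)
  have h3 := hD.nonneg 0
  simpa using lt_of_le_of_lt h3 h1

lemma ff_lt (hD : SDec D H) (hδ : 0 < δ) {m n : ℕ} (hm : m < L)
    (hp : 0 < ff D L δ (m + 1) n) : ff D L δ (m + 1) n < ff D L δ m n := by
  unfold ff at hp ⊢
  by_cases h1 : m + 1 + n ≤ L
  · rw [if_pos h1, if_pos (by omega), TT_succ (m := m + n) (by omega)]
    have : m + 1 + n = m + n + 1 := by ring
    rw [this]
    have := hD.nonneg (m + n)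
    linarith
  · rw [if_neg h1] at hp ⊢
    have hn1 : m + 1 + n - L < n := by
      by_contra hc
      push Not at hc
      rw [Finset.Ico_eq_empty_of_le hc, Finset.sum_empty] at hp
      exact lt_irrefl _ hp
    by_cases h2 : m + n ≤ L
    · rw [if_pos h2]
      have h3 : ∑ i ∈ Ico (m + 1 + n - L) n, D i ≤ ∑ i ∈ range n, D i := by
        apply Finset.sum_le_sum_of_subset_of_nonneg
        · intro i hi
          rw [Finset.mem_Ico] at hi
          exact Finset.mem_range.mpr hi.2
        · intro i _ _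
          exact hD.nonneg i
      have h4 := TT_pos hD hδ h2
      have h5 := hD.nonneg 0
      linarith
    · rw [if_neg h2]
      have h3 : m + 1 + n - L = (m + n - L) + 1 := by omega
      rw [Finset.sum_eq_sum_Ico_succ_bot (a := m + n - L) (by omega)]
      rw [h3]
      rw [h3] at hp hn1
      have : 0 < D (m + n - L) := by
        have h5 : (∑ i ∈ Ico (m + n - L + 1) n, D i) ≠ 0 := hp.ne'
        obtain ⟨i, hi, hi2⟩ := Finset.exists_ne_zero_of_sum_ne_zero h5
        rw [Finset.mem_Ico] at hi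
        have h6 : 0 < D i := lt_of_le_of_ne (hD.nonneg i) (Ne.symm hi2)
        exact lt_of_lt_of_le h6 (hD.antitone (by omega))
      linarith

lemma ff_le (hD : SDec D H) (hδ : 0 < δ) {m n : ℕ} (hm : m < L) :
    ff D L δ (m + 1) n ≤ ff D L δ m n := by
  rcases (ff_nonneg hD hδ (m := m + 1) (L := L) n).lt_or_eq with h | h
  · exact (ff_lt hD hδ hm h).le
  · rw [← h]; exact ff_nonneg hD hδ n

lemma D_lt_ff (hD : SDec D H) (hδ : 0 < δ) {m n : ℕ} (hm : m < L) (hp : 0 < D n) :
    D n < ff D L δ m n := by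
  unfold ff
  split_ifs with h1
  · have h2 := TT_pos hD hδ h1
    have h3 : 0 ≤ ∑ i ∈ range n, D i := Finset.sum_nonneg fun i _ => hD.nonneg i
    have h4 := hD.antitone (Nat.zero_le n)
    linarith
  · have hn : 1 ≤ n := by omega
    obtain ⟨k, rfl⟩ : ∃ k, n = k + 1 := ⟨n - 1, by omega⟩
    rw [Finset.sum_Ico_succ_top (by omega)]
    have h2 : 0 ≤ ∑ i ∈ Ico (m + (k + 1) - L) k, D i :=
      Finset.sum_nonneg fun i _ => hD.nonneg i
    have h3 : D (k + 1) < D k := by
      apply hD.anti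
      have := hD.le_of_pos hp
      omega
    linarith

lemma D_le_ff (hD : SDec D H) (hδ : 0 < δ) {m n : ℕ} (hm : m < L) :
    D n ≤ ff D L δ m n := by
  rcases (hD.nonneg n).lt_or_eq with h | h
  · exact (D_lt_ff hD hδ hm h).le
  · rw [← h]; exact ff_nonneg hD hδ n

lemma ff_zero (hD : SDec D H) {m n : ℕ} (hn : L + H < m + n) : ff D L δ m n = 0 := by
  unfold ff
  rw [if_neg (by omega)]
  apply Finset.sum_eq_zero
  intro i hi
  rw [Finset.mem_Ico] at hi
  exact hD.zero i (by omega)

lemma sdec_ff (hD : SDec D H) (hδ : 0 < δ) (hL : H < L) : SDec (ff D L δ 0) (L + H) := by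
  refine ⟨?_, ?_, ?_⟩
  · intro n hn
    unfold ff
    split_ifs with h1
    · have h2 := TT_pos hD hδ h1
      have h3 : 0 ≤ ∑ i ∈ range n, D i := Finset.sum_nonneg fun i _ => hD.nonneg i
      have h4 := hD.nonneg 0
      linarith
    · apply Finset.sum_pos'
      · intro i _; exact hD.nonneg i
      · refine ⟨0 + n - L, Finset.mem_Ico.mpr ⟨le_rfl, by omega⟩, hD.pos _ (by omega)⟩
  · intro n hn
    have hsplit : ∀ k, L ≤ k → ∑ i ∈ range k, D i = ∑ i ∈ range L, D i := by
      intro k hk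
      rw [← Finset.sum_range_add_sum_Ico _ hk]
      have : ∑ i ∈ Ico L k, D i = 0 := by
        apply Finset.sum_eq_zero
        intro i hi
        rw [Finset.mem_Ico] at hi
        exact hD.zero i (by omega)
      rw [this, add_zero]
    unfold ff
    by_cases h1 : n + 1 ≤ L
    · rw [if_pos (by omega), if_pos (by omega)]
      have h2 : 0 + (n + 1) = n + 1 := by ring
      have h3 : 0 + n = n := by ring
      rw [h2, h3, TT_succ (m := n) (by omega), Finset.sum_range_succ]
      linarith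
    · by_cases h2 : n ≤ L
      · have h3 : n = L := by omega
        subst h3
        rw [if_neg (by omega), if_pos (by omega)]
        have h4 : ∑ i ∈ Ico (0 + (n + 1) - n) (n + 1), D i ≤ ∑ i ∈ range (n + 1), D i := by
          apply Finset.sum_le_sum_of_subset_of_nonneg
          · intro i hi
            rw [Finset.mem_Ico] at hi
            exact Finset.mem_range.mpr hi.2
          · intro i _ _
            exact hD.nonneg i
        have h5 := TT_pos hD hδ (m := 0 + n) (L := n) (by omega)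
        have h6 := hD.nonneg 0
        have h7 := hsplit (n + 1) (by omega)
        linarith
      · rw [if_neg (by omega), if_neg (by omega)]
        have h3 : 0 + (n + 1) - L = (0 + n - L) + 1 := by omega
        rw [h3, Finset.sum_eq_sum_Ico_succ_bot (a := 0 + n - L) (by omega)]
        have h4 : ∑ i ∈ Ico (0 + n - L + 1) (n + 1), D i
            = ∑ i ∈ Ico (0 + n - L + 1) n, D i + D n :=
          Finset.sum_Ico_succ_top (by omega) _
        have h5 : D n = 0 := hD.zero n (by omega)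
        have h6 : 0 < D (0 + n - L) := hD.pos _ (by omega)
        rw [h4, h5]
        linarith
  · intro n hn
    exact ff_zero hD (by omega)

end trunk

end Helper63.Clust
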