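import Pool.Agent.Helper63.Clust.Pat

/-! The infinite tower of patterns and its numerical bounds. -/

open Finset

namespace Helper63.Clust

/-- total mass of the pattern, computed along generations -/
noncomputable def Gs (P : Pat) : ℝ := ∑ n ∈ range (P.h + 1), P.g n

/-- invariants of level `k` -/
structure LInv (k : ℕ) (P : Pat) : Prop where
  i1 : (2 : ℝ) ^ k * (((Step.J P : ℝ) + 1) * (P.g 0 + 1) + 2) ≤ P.a
  i3 : Gs P ≤ (5 - 4 * (1 / 2) ^ k) * ((P.a : ℝ) * P.b * P.c)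
  i4 : P.g 0 ≤ 10 * ((P.b : ℝ) * P.c)
  i5 : (2 : ℝ) ^ k ≤ P.c
  i6 : (2 : ℝ) ^ k ≤ 2 * P.b
  pw : ∃ α β γ : ℕ, P.a = 3 ^ α ∧ P.b = 3 ^ β ∧ P.c = 3 ^ γ

/-- bounds for step `k` -/
structure SInv (k : ℕ) {P : Pat} (S : Step P) : Prop where
  s1 : (2 : ℝ) ^ k * ((S.a' : ℝ) - (S.x1 - S.x0)) ≤ S.a'
  s2 : (2 : ℝ) ^ k * (((Step.J P + P.h : ℕ) + 1 : ℝ) ^ 2 * (P.g 0 + 1)) ≤ S.a'
  s3 : S.δ * S.a' = 1
  s4 : (Step.J P : ℝ) ≤ S.a'

section

variable {P : Pat} (S : Step P)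

lemma a'_pos : (0 : ℝ) < S.a' := by
  have h1 := S.fit'
  have h2 := S.hx0'
  have h3 := S.hL
  have := P.hτ
  have := P.hc
  have := P.hb
  have h4 : 0 < P.c * (P.b + 1) := by positivity
  have h5 : 0 < P.c * P.b := by positivity
  have h7 := P.fit
  have h6 : 0 < P.c * P.b * (P.a + 1) := by
    have : 0 < P.a + 1 := by omega
    positivity
  have : 0 < S.a' := by omega
  exact_mod_cast this

lemma L_le : (S.L : ℝ) + 1 ≤ S.a' := by
  have h1 := S.fit'
  have h2 := S.hx0'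
  have h3 := S.L_eq
  have := P.hτ
  have := P.hc
  have := P.hb
  have h4 : 0 < P.c * (P.b + 1) := by positivity
  have h5 : 0 < P.c * P.b := by positivity
  have h7 := P.fit
  have h6 : 0 < P.c * P.b * (P.a + 1) := by
    have : 0 < P.a + 1 := by omega
    positivity
  have : (S.L : ℤ) + 1 ≤ S.a' := by omega
  exact_mod_cast this

lemma J_pos : 1 ≤ Step.J P := by
  have h1 := Step.J_eq P
  have := P.hτ
  have := P.hc
  have := P.hb
  have h4 : 0 < P.c * (P.b + 1) := by positivity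
  omega

lemma D_zero (hδ : (Step.J P : ℝ) * S.δ ≤ 1) : S.D 0 ≤ P.g 0 + 1 := by
  have := DD_le P.sd (Step.J P) S.hδ 0
  unfold Step.D
  linarith

lemma sumD (hδ : (Step.J P : ℝ) * S.δ ≤ 1) (N : ℕ) :
    ∑ i ∈ range N, S.D i ≤ Gs P + Step.J P * (P.g 0 + 1) := by
  -- compare with the sum up to J + h + 1
  have h0 : ∑ i ∈ range N, S.D i ≤ ∑ i ∈ range (Step.J P + (P.h + 1)), S.D i := by
    rcases le_total N (Step.J P + (P.h + 1)) with h | h
    · apply Finset.sum_le_sum_of_subset_of_nonneg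
      · intro i hi
        rw [Finset.mem_range] at hi ⊢
        omega
      · intro i _ _
        exact S.sdD.nonneg i
    · rw [← Finset.sum_range_add_sum_Ico _ h]
      have : ∑ i ∈ Ico (Step.J P + (P.h + 1)) N, S.D i = 0 := by
        apply Finset.sum_eq_zero
        intro i hi
        rw [Finset.mem_Ico] at hi
        exact S.sdD.zero i (by omega)
      rw [this, add_zero]
  rw [Finset.sum_range_add] at h0
  have h1 : ∑ i ∈ range (P.h + 1), S.D (Step.J P + i) = Gs P := by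
    unfold Gs
    apply Finset.sum_congr rfl
    intro i _
    exact DD_add i
  have h2 : ∑ i ∈ range (Step.J P), S.D i ≤ Step.J P * (P.g 0 + 1) := by
    have : ∑ i ∈ range (Step.J P), S.D i ≤ ∑ i ∈ range (Step.J P), (P.g 0 + 1) := by
      apply Finset.sum_le_sum
      intro i _
      exact (S.sdD.antitone (Nat.zero_le i)).trans (D_zero S hδ)
    simp only [Finset.sum_const, Finset.card_range, nsmul_eq_mul] at this
    exact this
  linarith

lemma Gs_nonneg (P : Pat) : 0 ≤ Gs P := Finset.sum_nonneg fun i _ => P.sd.nonneg i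

lemma Lδ (hs3 : S.δ * S.a' = 1) : (S.L : ℝ) * S.δ ≤ 1 := by
  have h1 := L_le S
  have h2 := S.hδ
  nlinarith

lemma δ1 (hs3 : S.δ * S.a' = 1) : S.δ ≤ 1 := by
  have h1 := L_le S
  have h2 := S.hδ
  have h3 : (0 : ℝ) ≤ S.L := by positivity
  nlinarith

lemma f_le (hs3 : S.δ * S.a' = 1) (hδ : (Step.J P : ℝ) * S.δ ≤ 1) {n : ℕ} (hn : n ≤ S.L) :
    S.f 0 n ≤ Gs P + (Step.J P + 1) * (P.g 0 + 1) + 2 := by
  unfold Step.f ff
  rw [if_pos (by omega)]
  unfold TT
  have h1 : ∑ i ∈ Ico (0 + n) S.L, S.D i + ∑ i ∈ range n, S.D i = ∑ i ∈ range S.L, S.D i := by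
    rw [add_comm, zero_add, Finset.sum_range_add_sum_Ico _ hn]
  have h2 := sumD S hδ S.L
  have h3 := D_zero S hδ
  have h4 := Lδ S hs3
  have h5 := δ1 S hs3
  have h6 : ((S.L : ℝ) - (0 + n : ℕ)) * S.δ ≤ S.L * S.δ := by
    apply mul_le_mul_of_nonneg_right _ S.hδ.le
    have : (0 : ℝ) ≤ ((0 + n : ℕ) : ℝ) := by positivity
    linarith
  linarith

lemma Gs_next (hs3 : S.δ * S.a' = 1) (hδ : (Step.J P : ℝ) * S.δ ≤ 1) :
    Gs S.next ≤ (S.L + 1) * (Gs P + (Step.J P + 1) * (P.g 0 + 1) + 2) +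
      (Step.J P + P.h : ℕ) * (Gs P + Step.J P * (P.g 0 + 1)) := by
  have e : Gs S.next = ∑ n ∈ range ((S.L + 1) + (Step.J P + P.h)), S.f 0 n := by
    unfold Gs
    have : S.next.h + 1 = (S.L + 1) + (Step.J P + P.h) := by
      change S.L + (Step.J P + P.h) + 1 = _
      ring
    rw [this]
    rfl
  rw [e, Finset.sum_range_add]
  have h1 : ∑ n ∈ range (S.L + 1), S.f 0 n ≤
      ∑ n ∈ range (S.L + 1), (Gs P + (Step.J P + 1) * (P.g 0 + 1) + 2) := by
    apply Finset.sum_le_sum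
    intro n hn
    rw [Finset.mem_range] at hn
    exact f_le S hs3 hδ (by omega)
  have h2 : ∑ n ∈ range (Step.J P + P.h), S.f 0 (S.L + 1 + n) ≤
      ∑ n ∈ range (Step.J P + P.h), (Gs P + Step.J P * (P.g 0 + 1)) := by
    apply Finset.sum_le_sum
    intro n _
    unfold Step.f ff
    rw [if_neg (by omega)]
    refine le_trans ?_ (sumD S hδ (S.L + 1 + n))
    apply Finset.sum_le_sum_of_subset_of_nonneg
    · intro i hi
      rw [Finset.mem_Ico] at hi
      exact Finset.mem_range.mpr hi.2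
    · intro i _ _
      exact S.sdD.nonneg i
  simp only [Finset.sum_const, Finset.card_range, nsmul_eq_mul] at h1 h2
  push_cast at h1 h2 ⊢
  linarith

end

lemma exists_step (k : ℕ) (P : Pat) (hP : LInv k P) :
    ∃ S : Step P, SInv k S ∧ LInv (k + 1) S.next := by
  obtain ⟨i1, i3, i4, i5, i6, α, β, γ, hα, hβ, hγ⟩ := hP
  have hb := P.hb
  have hc := P.hc
  have hτ := P.hτ
  have hfit := P.fit
  have hJ := Step.J_eq P
  have hΛ : 0 < P.c * (P.b + 1) := by positivity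
  have hcb : 0 < P.c * P.b := by positivity
  have ha : 0 < P.a := by omega
  have hcba : 0 < P.c * P.b * (P.a + 1) := by positivity
  -- fixed data
  set x0 : ℤ := (2 * P.b + 1) * P.c with hx0
  set m : ℤ := P.h + P.τ + P.c * (P.b + 1) + P.c * P.b * (P.a + 1) + 2 with hm
  have hmpos : 0 < m := by omega
  set g0 : ℝ := P.g 0 with hg0
  have hg0pos : 0 < g0 := P.sd.pos 0 (Nat.zero_le _)
  have hG0 := Gs_nonneg P
  set H : ℝ := ((Step.J P + P.h : ℕ) : ℝ) with hH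
  have hH0 : 0 ≤ H := by positivity
  set Jn : ℝ := (x0 : ℝ) + P.c * P.b * (P.a + 1) with hJn
  have hx0pos : 0 < x0 := by positivity
  have hJn0 : 0 ≤ Jn := by
    have h1 : (0 : ℝ) < x0 := by exact_mod_cast hx0pos
    have h2 : (0 : ℝ) < P.c * P.b * (P.a + 1) := by exact_mod_cast hcba
    linarith
  set R : ℝ := (2 : ℝ) ^ k * (m * P.c + x0) + (2 : ℝ) ^ k * ((H + 1) ^ 2 * (g0 + 1)) +
    Step.J P + (2 : ℝ) ^ (k + 1) * ((Jn + 1) * (Gs P + (Step.J P + 1) * (g0 + 1) + 3) + 2) +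
    (2 : ℝ) ^ k * (H * (Gs P + Step.J P * (g0 + 1))) +
    (P.h + P.τ + P.c * (P.b + 1) + m * P.c + x0 + P.c : ℤ) with hR
  obtain ⟨N0, hN0⟩ := pow_unbounded_of_one_lt R (show (1 : ℝ) < 3 by norm_num)
  set N := N0 + γ with hN
  have hNR : R < (3 : ℝ) ^ N := by
    refine lt_of_lt_of_le hN0 ?_
    exact pow_le_pow_right₀ (by norm_num) (by omega)
  have h2k : (1 : ℝ) ≤ 2 ^ k := one_le_pow₀ (by norm_num)
  have h2k1 : (1 : ℝ) ≤ 2 ^ (k + 1) := one_le_pow₀ (by norm_num)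
  have hJ0 : (0 : ℝ) ≤ Step.J P := by positivity
  have hτ0 : 0 < P.τ := by omega
  have hmc : (0 : ℝ) ≤ m * P.c + x0 := by
    have : 0 ≤ m * P.c + x0 := by positivity
    exact_mod_cast this
  have t1 : 0 ≤ (2 : ℝ) ^ k * (m * P.c + x0) := by positivity
  have t2 : 0 ≤ (2 : ℝ) ^ k * ((H + 1) ^ 2 * (g0 + 1)) := by positivity
  have t4 : 0 ≤ (2 : ℝ) ^ (k + 1) * ((Jn + 1) * (Gs P + (Step.J P + 1) * (g0 + 1) + 3) + 2) := by
    positivity
  have t5 : 0 ≤ (2 : ℝ) ^ k * (H * (Gs P + Step.J P * (g0 + 1))) := by positivity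
  have t6 : (0 : ℝ) ≤ (P.h + P.τ + P.c * (P.b + 1) + m * P.c + x0 + P.c : ℤ) := by
    have : 0 ≤ (P.h + P.τ + P.c * (P.b + 1) + m * P.c + x0 + P.c : ℤ) := by positivity
    exact_mod_cast this
  have hN6 : P.h + P.τ + P.c * (P.b + 1) + m * P.c + x0 + P.c < (3 : ℤ) ^ N := by
    have : ((P.h + P.τ + P.c * (P.b + 1) + m * P.c + x0 + P.c : ℤ) : ℝ) < ((3 : ℤ) ^ N : ℤ) := by
      have h1 := hNR
      rw [hR] at h1
      push_cast at h1 t6 ⊢
      linarith
    exact_mod_cast this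
  have hmcle : m ≤ m * P.c := by nlinarith
  have hdvd : P.c ∣ (3 : ℤ) ^ N := by
    rw [hγ]
    exact pow_dvd_pow 3 (by omega)
  let S : Step P :=
    { x0 := x0
      x1 := 3 ^ N - m * P.c
      a' := 3 ^ N
      δ := 1 / (3 : ℝ) ^ N
      hx0 := by
        rw [hx0]
        exact Int.mul_emod_left _ _
      hx1 := by
        apply Int.emod_eq_zero_of_dvd
        exact dvd_sub hdvd (Dvd.intro_left m rfl)
      hx0' := by
        rw [hx0]
        nlinarith
      hL := by omega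
      oa' := by
        rw [← Int.odd_iff]
        exact Odd.pow (by decide)
      fit' := by omega
      hδ := by positivity }
  have hs3 : S.δ * S.a' = 1 := by
    change 1 / (3 : ℝ) ^ N * (((3 : ℤ) ^ N : ℤ) : ℝ) = 1
    push_cast
    field_simp
  have hs4 : (Step.J P : ℝ) ≤ S.a' := by
    change (Step.J P : ℝ) ≤ (((3 : ℤ) ^ N : ℤ) : ℝ)
    push_cast
    linarith
  have hδ : (Step.J P : ℝ) * S.δ ≤ 1 := by
    rw [← hs3, mul_comm]
    exact mul_le_mul_of_nonneg_left hs4 S.hδ.le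
  have hf0 := f_le S hs3 hδ (n := 0) (Nat.zero_le _)
  have hGn := Gs_next S hs3 hδ
  have hL1 := L_le S
  have ea : (S.a' : ℝ) = 3 ^ N := by
    change (((3 : ℤ) ^ N : ℤ) : ℝ) = _
    push_cast
    rfl
  have hV : (P.a : ℝ) ≤ (P.a : ℝ) * P.b * P.c := by
    have h1 : (3 : ℝ) ≤ P.b := by exact_mod_cast hb
    have h2 : (5 : ℝ) ≤ P.c := by exact_mod_cast hc
    have h3 : (0 : ℝ) < P.a := by exact_mod_cast ha
    have h4 : (1 : ℝ) ≤ P.b * P.c := by nlinarith
    have : (P.a : ℝ) * 1 ≤ (P.a : ℝ) * (P.b * P.c) := mul_le_mul_of_nonneg_left h4 h3.le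
    linarith
  have hapos : (0 : ℝ) < P.a := by exact_mod_cast ha
  set V : ℝ := (P.a : ℝ) * P.b * P.c with hVdef
  have hVpos : 0 < V := lt_of_lt_of_le hapos hV
  have hV1 : 1 ≤ V := by
    have : (1 : ℝ) ≤ P.a := by exact_mod_cast ha
    linarith
  refine ⟨S, ⟨?_, ?_, hs3, hs4⟩, ?_⟩
  · change (2 : ℝ) ^ k * ((S.a' : ℝ) - (((3 ^ N - m * P.c : ℤ) : ℝ) - (x0 : ℝ))) ≤ S.a'
    rw [ea]
    push_cast
    have : (3 : ℝ) ^ N - (3 ^ N - m * P.c - x0) = m * P.c + x0 := by ring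
    rw [this]
    linarith
  · rw [ea]
    change (2 : ℝ) ^ k * ((H + 1) ^ 2 * (g0 + 1)) ≤ _
    linarith
  · have hi1 : (Step.J P + 1) * (g0 + 1) + 2 ≤ (1 / 2) ^ k * V := by
      have h3 : (1 / 2 : ℝ) ^ k * 2 ^ k = 1 := by
        rw [← mul_pow]; norm_num
      have h4 : (1 / 2 : ℝ) ^ k * ((2 : ℝ) ^ k * (((Step.J P : ℝ) + 1) * (g0 + 1) + 2)) ≤
          (1 / 2 : ℝ) ^ k * V := by
        apply mul_le_mul_of_nonneg_left (i1.trans hV) (by positivity)
      rw [← mul_assoc, h3, one_mul] at h4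
      exact h4
    refine ⟨?_, ?_, ?_, ?_, ?_, ?_⟩
    · -- i1
      change (2 : ℝ) ^ (k + 1) * (((Step.J S.next : ℝ) + 1) * (S.f 0 0 + 1) + 2) ≤ S.a'
      rw [ea]
      have hJn' : (Step.J S.next : ℝ) ≤ Jn := by
        have h1 := Step.J_eq S.next
        have h2 : (Step.J S.next : ℤ) = x0 + P.c * P.b * (P.a + 1) - 1 := h1
        have h3 : (Step.J S.next : ℤ) ≤ x0 + P.c * P.b * (P.a + 1) := by omega
        rw [hJn]
        exact_mod_cast h3
      have h4 : (0 : ℝ) ≤ Step.J S.next := by positivity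
      have h5 : 0 ≤ S.f 0 0 := ff_nonneg S.sdD S.hδ 0
      have h6 : ((Step.J S.next : ℝ) + 1) * (S.f 0 0 + 1) ≤
          (Jn + 1) * (Gs P + (Step.J P + 1) * (g0 + 1) + 3) := by
        apply mul_le_mul (by linarith) (by linarith) (by linarith) (by linarith)
      have h7 : (2 : ℝ) ^ (k + 1) * (((Step.J S.next : ℝ) + 1) * (S.f 0 0 + 1) + 2) ≤
          (2 : ℝ) ^ (k + 1) * ((Jn + 1) * (Gs P + (Step.J P + 1) * (g0 + 1) + 3) + 2) := by
        apply mul_le_mul_of_nonneg_left (by linarith) (by positivity)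
      linarith
    · -- i3
      change Gs S.next ≤ (5 - 4 * (1 / 2) ^ (k + 1)) * ((S.a' : ℝ) * P.a * ((P.c * P.b : ℤ) : ℝ))
      have h1 : ((S.a' : ℝ) * P.a * ((P.c * P.b : ℤ) : ℝ)) = S.a' * V := by
        rw [hVdef]; push_cast; ring
      rw [h1]
      have h2 : (Step.J P + P.h : ℕ) * (Gs P + Step.J P * (P.g 0 + 1)) ≤ (1 / 2) ^ k * S.a' := by
        have h3 : (1 / 2 : ℝ) ^ k * 2 ^ k = 1 := by
          rw [← mul_pow]; norm_num
        have h4 : (2 : ℝ) ^ k * (H * (Gs P + Step.J P * (g0 + 1))) ≤ S.a' := by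
          rw [ea]; linarith
        have h5 := mul_le_mul_of_nonneg_left h4 (show (0 : ℝ) ≤ (1 / 2) ^ k by positivity)
        rw [← mul_assoc, h3, one_mul] at h5
        exact h5
      have ha' := a'_pos S
      have h6 : (S.L + 1) * (Gs P + (Step.J P + 1) * (P.g 0 + 1) + 2) ≤
          S.a' * ((5 - 4 * (1 / 2) ^ k) * V + (1 / 2) ^ k * V) := by
        apply mul_le_mul hL1 _ (by positivity) ha'.le
        linarith
      have h7 : (1 / 2 : ℝ) ^ k * S.a' ≤ (1 / 2) ^ k * (S.a' * V) := by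
        apply mul_le_mul_of_nonneg_left _ (by positivity)
        nlinarith
      have h8 : (1 / 2 : ℝ) ^ (k + 1) = (1 / 2) ^ k / 2 := by rw [pow_succ]; ring
      rw [h8]
      have h9 : S.a' * ((5 - 4 * (1 / 2) ^ k) * V + (1 / 2) ^ k * V) +
          (1 / 2 : ℝ) ^ k * (S.a' * V) = (5 - 4 * ((1 / 2) ^ k / 2)) * (S.a' * V) := by ring
      linarith
    · -- i4
      change S.f 0 0 ≤ 10 * ((P.a : ℝ) * ((P.c * P.b : ℤ) : ℝ))
      have h1 : ((P.a : ℝ) * ((P.c * P.b : ℤ) : ℝ)) = V := by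
        rw [hVdef]; push_cast; ring
      rw [h1]
      have h2 : (1 / 2 : ℝ) ^ k ≤ 1 := pow_le_one₀ (by norm_num) (by norm_num)
      have h3 : (1 / 2 : ℝ) ^ k * V ≤ 1 * V := mul_le_mul_of_nonneg_right h2 hVpos.le
      have h4 : (0 : ℝ) ≤ (1 / 2) ^ k := by positivity
      have h5 : (5 - 4 * (1 / 2 : ℝ) ^ k) * V ≤ 5 * V := by
        apply mul_le_mul_of_nonneg_right _ hVpos.le
        linarith
      linarith
    · -- i5
      change (2 : ℝ) ^ (k + 1) ≤ ((P.c * P.b : ℤ) : ℝ)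
      push_cast
      have h1 : (3 : ℝ) ≤ P.b := by exact_mod_cast hb
      have h2 : (0 : ℝ) < P.c := by
        have : (5 : ℝ) ≤ P.c := by exact_mod_cast hc
        linarith
      rw [pow_succ]
      nlinarith
    · -- i6
      change (2 : ℝ) ^ (k + 1) ≤ 2 * (P.a : ℝ)
      rw [pow_succ]
      have h1 : (1 : ℝ) ≤ ((Step.J P : ℝ) + 1) * (g0 + 1) + 2 := by
        have : 0 ≤ ((Step.J P : ℝ) + 1) * (g0 + 1) := by positivity
        linarith
      have h2 : (2 : ℝ) ^ k * 1 ≤ (2 : ℝ) ^ k * (((Step.J P : ℝ) + 1) * (g0 + 1) + 2) :=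
        mul_le_mul_of_nonneg_left h1 (by positivity)
      linarith
    · refine ⟨N, α, γ + β, rfl, hα, ?_⟩
      change P.c * P.b = _
      rw [hγ, hβ, pow_add]

end Helper63.Clust
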